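import Mathlib

/-!
# Injective tuples, falling factorials and a tangent line inequality
-/

set_option autoImplicit false

open Finset

namespace Pool.Agent.HL

/-- Injective `r`-tuples with entries in `T`. -/
def injTuples (r : ℕ) (T : Finset ℕ) : Finset (Fin r → ℕ) :=
  (Fintype.piFinset (fun _ : Fin r => T)).filter (fun b => Function.Injective b)

lemma mem_injTuples {r : ℕ} {T : Finset ℕ} {b : Fin r → ℕ} :
    b ∈ injTuples r T ↔ (∀ i, b i ∈ T) ∧ Function.Injective b := by
  unfold injTuples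
  rw [mem_filter, Fintype.mem_piFinset]

lemma card_injTuples (r : ℕ) (T : Finset ℕ) : (injTuples r T).card = T.card.descFactorial r := by
  have h := Fintype.card_embedding_eq (α := Fin r) (β := T)
  rw [Fintype.card_fin, Fintype.card_coe] at h
  rw [← h, ← Fintype.card_coe]
  refine Fintype.card_congr ?_
  exact
    { toFun := fun b => ⟨fun i => ⟨b.1 i, (mem_injTuples.mp b.2).1 i⟩, fun i j hij => by
        have := (mem_injTuples.mp b.2).2
        exact this (by simpa using hij)⟩
      invFun := fun e => ⟨fun i => (e i : ℕ), mem_injTuples.mpr ⟨fun i => (e i).2, fun i j hij => by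
        exact e.injective (Subtype.ext hij)⟩⟩
      left_inv := fun b => by ext; rfl
      right_inv := fun e => by ext; rfl }

lemma injTuples_mono {r : ℕ} {S T : Finset ℕ} (h : S ⊆ T) : injTuples r S ⊆ injTuples r T := by
  intro b hb
  rw [mem_injTuples] at *
  exact ⟨fun i => h (hb.1 i), hb.2⟩

lemma card_injTuples_le (r : ℕ) (T : Finset ℕ) : (injTuples r T).card ≤ T.card ^ r := by
  rw [card_injTuples]
  exact Nat.descFactorial_le_pow _ _

/-- Tangent line inequality for `t ↦ t^r`. -/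
lemma pow_tangent (r : ℕ) (hr : 1 ≤ r) {t m : ℝ} (ht : 0 ≤ t) (hm : 0 ≤ m) :
    (r : ℝ) * m ^ (r - 1) * t - (r - 1) * m ^ r ≤ t ^ r := by
  obtain ⟨k, rfl⟩ : ∃ k, r = k + 1 := ⟨r - 1, by omega⟩
  simp only [Nat.add_sub_cancel]
  push_cast
  rcases hm.eq_or_lt with rfl | hm
  · rcases Nat.eq_zero_or_pos k with rfl | hk
    · simp
    · rw [zero_pow (by omega), zero_pow (by omega)]
      have : 0 ≤ t ^ (k + 1) := by positivity
      simpa using this
  · have h := one_add_mul_le_pow (a := t / m - 1) (by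
      have : 0 ≤ t / m := by positivity
      linarith) (k + 1)
    push_cast at h
    have e : 1 + (t / m - 1) = t / m := by ring
    rw [e, div_pow, le_div_iff₀ (by positivity)] at h
    have e2 : (1 + ((k:ℝ) + 1) * (t / m - 1)) * m ^ (k + 1)
        = ((k:ℝ) + 1) * m ^ k * t - k * m ^ (k + 1) := by
      have : m ≠ 0 := hm.ne'
      field_simp
      ring
    rw [e2] at h
    linarith

lemma desc_ge (r : ℕ) (hr : 1 ≤ r) (X : ℕ) {m : ℝ} (hm : 0 ≤ m) :
    (r : ℝ) * m ^ (r - 1) * ((X : ℝ) - r) - (r - 1) * m ^ r ≤ (X.descFactorial r : ℝ) := by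
  rcases le_or_gt r X with h | h
  · have h1 : (X - r) ^ r ≤ X.descFactorial r :=
      le_trans (Nat.pow_le_pow_left (by omega) r) (Nat.pow_sub_le_descFactorial X r)
    have h2 : ((X:ℝ) - r) ^ r ≤ (X.descFactorial r : ℝ) := by
      have : (((X - r : ℕ)) : ℝ) ^ r ≤ (X.descFactorial r : ℝ) := by exact_mod_cast h1
      rwa [Nat.cast_sub h] at this
    refine le_trans ?_ h2
    exact pow_tangent r hr (by
      have : (r:ℝ) ≤ X := by exact_mod_cast h
      linarith) hm
  · have h1 : ((X:ℝ) - r) ≤ 0 := by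
      have : (X:ℝ) < r := by exact_mod_cast h
      linarith
    have h2 : (1:ℝ) ≤ r := by exact_mod_cast hr
    have h3 : 0 ≤ m ^ (r-1) := by positivity
    have h4 : 0 ≤ m ^ r := by positivity
    have h5 : (r : ℝ) * m ^ (r - 1) * ((X : ℝ) - r) ≤ 0 :=
      mul_nonpos_of_nonneg_of_nonpos (by positivity) h1
    have h6 : 0 ≤ ((r:ℝ) - 1) * m ^ r := mul_nonneg (by linarith) h4
    have h7 : (0:ℝ) ≤ (X.descFactorial r : ℝ) := by positivity
    linarith

/-- `(t - r)_+^r ≥ t^r - r² t^(r-1)`, in the form used below. -/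
lemma pow_sub_ge (r : ℕ) (hr : 1 ≤ r) {t : ℝ} (ht : (r:ℝ) ≤ t) :
    t ^ r - (r:ℝ) ^ 2 * t ^ (r - 1) ≤ (t - r) ^ r := by
  have hr1 : (1:ℝ) ≤ r := by exact_mod_cast hr
  have h := pow_tangent r hr (t := t - r) (m := t) (by linarith) (by linarith)
  obtain ⟨k, rfl⟩ : ∃ k, r = k + 1 := ⟨r - 1, by omega⟩
  simp only [Nat.add_sub_cancel] at *
  push_cast at *
  rw [pow_succ t k] at h ⊢
  nlinarith

end Pool.Agent.HL
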