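import Pool.Agent.Lib.HL.SSBound

/-!
# Admissible tuples and the singular series
-/

set_option autoImplicit false

open Finset Filter Topology

namespace Pool.Agent.HL

open Pool.Agent.Lib.Sieve4

/-- Admissible: for each prime the shifts miss a residue class. -/
def Adm {r : ℕ} (a : Fin r → ℤ) : Prop := ∀ p : ℕ, p.Prime → nu a p < p

/-- The singular series. -/
noncomputable def SS {r : ℕ} (a : Fin r → ℤ) : ℝ := ∏' p : Nat.Primes, loc a p

lemma shift_injective {r : ℕ} (c d : ℕ) (hd : d ≠ 0) (b : Fin r → ℕ) (hb : Function.Injective b) :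
    Function.Injective (shift c d b) := by
  intro i j hij
  apply hb
  unfold shift at hij
  have h1 : c + d * b i = c + d * b j := by exact_mod_cast hij
  exact Nat.eq_of_mul_eq_mul_left (Nat.pos_of_ne_zero hd) (by omega)

lemma hasProd_SS {r : ℕ} (a : Fin r → ℤ) (ha : Function.Injective a) :
    HasProd (fun p : Nat.Primes => loc a p) (SS a) := (multipliable_loc a ha).hasProd

/-- The first power product. -/
noncomputable def PP {r : ℕ} (b : Fin r → ℕ) (z H : ℕ) : ℝ := ∏ p ∈ badPrimes b z H, ww (r-1) p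

lemma PP_sq {r : ℕ} (b : Fin r → ℕ) (z H : ℕ) :
    PP b z H ^ 2 = ∏ p ∈ badPrimes b z H, ww ((r-1)*2) p := by
  unfold PP
  rw [← Finset.prod_pow]
  exact Finset.prod_congr rfl fun p _ => ww_pow _ _ _

lemma one_le_PP {r : ℕ} (b : Fin r → ℕ) (z H : ℕ) : 1 ≤ PP b z H := one_le_prod_bad b z H (r-1)

/-- The exponent in the averages. -/
def EE (r : ℕ) : ℕ := (r - 1) * 2 * (r * (r - 1)) + 1

lemma sum_PP_sq_le {r : ℕ} (hr : 2 ≤ r) {z : ℕ} (hz : 1 ≤ z) (H : ℕ) :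
    ∑ b ∈ injTuples r (Icc 1 H), PP b z H ^ 2 ≤ Real.exp (2 ^ (EE r) / z) * (H:ℝ) ^ r := by
  simp_rw [PP_sq]
  exact avg_badPrimes hr ((r-1)*2) hz H

lemma card_injTuples_Icc_ge {r : ℕ} (hr : 1 ≤ r) (H : ℕ) :
    (H:ℝ) ^ r - (r:ℝ) ^ 2 * (H:ℝ) ^ (r - 1) ≤ ((injTuples r (Icc 1 H)).card : ℝ) := by
  rw [card_injTuples, Nat.card_Icc, Nat.add_sub_cancel]
  have h := desc_ge r hr H (m := (H:ℝ)) (Nat.cast_nonneg _)
  refine le_trans (le_of_eq ?_) h
  obtain ⟨k, rfl⟩ : ∃ k, r = k + 1 := ⟨r - 1, by omega⟩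
  simp only [Nat.add_sub_cancel]
  push_cast
  ring

lemma sum_PP_sub_one_sq_le {r : ℕ} (hr : 2 ≤ r) {z : ℕ} (hz : 1 ≤ z) (H : ℕ) {B : Finset ℕ}
    (hB : B ⊆ Icc 1 H) :
    ∑ b ∈ injTuples r B, (PP b z H - 1) ^ 2
      ≤ (Real.exp (2 ^ (EE r) / z) - 1) * (H:ℝ) ^ r + (r:ℝ) ^ 2 * (H:ℝ) ^ (r - 1) := by
  have h1 : ∑ b ∈ injTuples r B, (PP b z H - 1) ^ 2
      ≤ ∑ b ∈ injTuples r (Icc 1 H), (PP b z H - 1) ^ 2 :=
    Finset.sum_le_sum_of_subset_of_nonneg (injTuples_mono hB) fun _ _ _ => by positivity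
  have h2 : ∑ b ∈ injTuples r (Icc 1 H), (PP b z H - 1) ^ 2
      ≤ ∑ b ∈ injTuples r (Icc 1 H), (PP b z H ^ 2 - 1) := by
    refine Finset.sum_le_sum fun b _ => ?_
    have := one_le_PP b z H
    nlinarith
  rw [Finset.sum_sub_distrib, Finset.sum_const, nsmul_eq_mul, mul_one] at h2
  have h3 := sum_PP_sq_le hr hz H
  have h4 := card_injTuples_Icc_ge (show 1 ≤ r by omega) H
  linarith

end Pool.Agent.HL
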