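import Pool.Agent.Lib.Sieve4.TupleDefs

/-!
# Shifts and local densities
-/

set_option autoImplicit false

open Finset Filter

namespace Pool.Agent.HL

open Pool.Agent.Lib.Sieve4

/-- The shifts `c + d * b i`. -/
def shift {r : ℕ} (c d : ℕ) (b : Fin r → ℕ) : Fin r → ℤ := fun i => ((c + d * b i : ℕ) : ℤ)

lemma one_sub_inv_pos {p : ℕ} (hp : p.Prime) : 0 < 1 - 1 / (p:ℝ) := by
  have hp1 : (1:ℝ) < p := by exact_mod_cast hp.one_lt
  have h2 : 1 / (p : ℝ) < 1 := by rw [div_lt_one (by linarith)]; exact hp1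
  linarith

lemma one_sub_inv_le_one {p : ℕ} : 1 - 1 / (p:ℝ) ≤ 1 := by
  have : 0 ≤ 1 / (p:ℝ) := by positivity
  linarith

end Pool.Agent.HL
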