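import Pool.Agent.Lib.HL.Base
import Pool.Agent.Lib.Sieve4.Core

/-!
# Counting in residue classes
-/

set_option autoImplicit false

open Finset

namespace Pool.Agent.HL

open Pool.Agent.Lib.Sieve4

/-- Upper bound for the number of integers in a fixed class modulo `∏ s1` with `n + c` coprime to the
primes in `s2`. -/
lemma classCount_le (s1 s2 : Finset ℕ) (h1 : ∀ p ∈ s1, p.Prime) (h2 : ∀ p ∈ s2, p.Prime)
    (hd : Disjoint s1 s2) (u c N : ℕ) :
    (((range N).filter (fun n => (∀ p ∈ s1, n % p = u % p) ∧ (∀ p ∈ s2, ¬ p ∣ n + c))).card : ℝ) ≤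
      (N : ℝ) / (∏ p ∈ s1, (p:ℝ)) * (∏ p ∈ s2, (1 - 1 / (p:ℝ))) + ∏ p ∈ s1 ∪ s2, (p:ℝ) := by
  classical
  set F : ℕ → ℕ → ℝ := fun p n => if p ∈ s2 then (if p ∣ n + c then 0 else 1)
    else (if n % p = u % p then 1 else 0) with hF
  have hs : ∀ p ∈ s1 ∪ s2, p.Prime := by
    intro p hp
    rcases mem_union.1 hp with h | h
    exacts [h1 p h, h2 p h]
  have hFmod : ∀ p n, F p (n % p) = F p n := by
    intro p n
    simp only [hF]
    by_cases hp : p ∈ s2
    · simp only [hp, if_true]
      have : p ∣ n % p + c ↔ p ∣ n + c := by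
        rw [Nat.dvd_iff_mod_eq_zero, Nat.dvd_iff_mod_eq_zero, Nat.mod_add_mod]
      simp only [this]
    · simp only [hp, if_false, Nat.mod_mod]
  have hF01 : ∀ p n, 0 ≤ F p n ∧ F p n ≤ 1 := by
    intro p n
    simp only [hF]
    split_ifs <;> norm_num
  set G : ℕ → ℝ := fun n => ∏ p ∈ s1 ∪ s2, F p n with hG
  have hcard : (((range N).filter (fun n => (∀ p ∈ s1, n % p = u % p) ∧
      (∀ p ∈ s2, ¬ p ∣ n + c))).card : ℝ) = ∑ n ∈ range N, G n := by
    rw [Finset.card_filter]
    push_cast
    refine Finset.sum_congr rfl fun n _ => ?_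
    by_cases hcond : (∀ p ∈ s1, n % p = u % p) ∧ (∀ p ∈ s2, ¬ p ∣ n + c)
    · rw [if_pos hcond]
      simp only [hG]
      rw [Finset.prod_eq_one]
      intro p hp
      simp only [hF]
      by_cases hp2 : p ∈ s2
      · simp only [hp2, if_true]
        rw [if_neg (hcond.2 p hp2)]
      · simp only [hp2, if_false]
        have hp1 : p ∈ s1 := by
          rcases mem_union.1 hp with h | h
          · exact h
          · exact absurd h hp2
        rw [if_pos (hcond.1 p hp1)]
    · rw [if_neg hcond]
      symm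
      rw [not_and_or] at hcond
      rcases hcond with hc | hc
      · push Not at hc
        obtain ⟨p, hp, hpu⟩ := hc
        refine Finset.prod_eq_zero (mem_union_left _ hp) ?_
        have hp2 : p ∉ s2 := Finset.disjoint_left.mp hd hp
        simp only [hF, hp2, if_false]
        rw [if_neg hpu]
      · push Not at hc
        obtain ⟨p, hp, hpu⟩ := hc
        refine Finset.prod_eq_zero (mem_union_right _ hp) ?_
        simp only [hF, hp, if_true]
        rw [if_pos hpu]
  rw [hcard]
  set M := ∏ p ∈ s1 ∪ s2, p with hM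
  have hMpos : 0 < M := Finset.prod_pos fun p hp => (hs p hp).pos
  have hGper : ∀ n, G (n % M) = G n := by
    intro n
    simp only [hG]
    refine Finset.prod_congr rfl fun p hp => ?_
    rw [← hFmod p (n % M), Nat.mod_mod_of_dvd _ (Finset.dvd_prod_of_mem _ hp), hFmod]
  have hGB : ∀ n, |G n| ≤ 1 := by
    intro n
    simp only [hG]
    rw [abs_of_nonneg (Finset.prod_nonneg fun p _ => (hF01 p n).1)]
    exact Finset.prod_le_one (fun p _ => (hF01 p n).1) (fun p _ => (hF01 p n).2)
  have hperiod : ∑ n ∈ range M, G n = ∏ p ∈ s2, ((p:ℝ) - 1) := by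
    have e1 : ∑ n ∈ range M, G n = ∑ n ∈ range (∏ p ∈ s1 ∪ s2, p), ∏ p ∈ s1 ∪ s2, F p (n % p) := by
      refine Finset.sum_congr rfl fun n _ => ?_
      simp only [hG]
      exact Finset.prod_congr rfl fun p _ => (hFmod p n).symm
    rw [e1, sum_range_prod_crt _ hs, Finset.prod_union hd]
    have e2 : ∏ p ∈ s1, ∑ a ∈ range p, F p a = 1 := by
      refine Finset.prod_eq_one fun p hp => ?_
      have hp2 : p ∉ s2 := Finset.disjoint_left.mp hd hp
      have : ∀ a ∈ range p, F p a = if a = u % p then 1 else 0 := by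
        intro a ha
        rw [mem_range] at ha
        simp only [hF, hp2, if_false]
        rw [Nat.mod_eq_of_lt ha]
      rw [Finset.sum_congr rfl this, Finset.sum_ite_eq', if_pos]
      rw [mem_range]
      exact Nat.mod_lt _ (h1 p hp).pos
    rw [e2, one_mul]
    refine Finset.prod_congr rfl fun p hp => ?_
    have hpp := h2 p hp
    have e3 : ∀ a ∈ range p, F p a = 1 - (if a = (p - c % p) % p then 1 else 0) := by
      intro a ha
      rw [mem_range] at ha
      simp only [hF, hp, if_true]
      have hiff : p ∣ a + c ↔ a = (p - c % p) % p := by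
        have hcp := Nat.mod_lt c hpp.pos
        rw [Nat.dvd_iff_mod_eq_zero, Nat.add_mod, Nat.mod_eq_of_lt ha]
        constructor
        · intro h
          rcases Nat.eq_zero_or_pos (c % p) with h0 | h0
          · rw [h0] at h ⊢
            simp only [Nat.add_zero, Nat.sub_zero, Nat.mod_self] at h ⊢
            rwa [Nat.mod_eq_of_lt ha] at h
          · rw [Nat.mod_eq_of_lt (by omega : p - c % p < p)]
            have hdvd := Nat.dvd_of_mod_eq_zero h
            obtain ⟨k, hk⟩ := hdvd
            have hk1 : k = 1 := by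
              rcases k with _ | _ | k
              · omega
              · rfl
              · exfalso
                have : p * (k + 1 + 1) ≥ p * 2 := Nat.mul_le_mul_left _ (by omega)
                omega
            subst hk1
            omega
        · intro h
          rcases Nat.eq_zero_or_pos (c % p) with h0 | h0
          · rw [h0] at h ⊢
            simp only [Nat.sub_zero, Nat.mod_self] at h
            subst h
            simp
          · rw [Nat.mod_eq_of_lt (by omega : p - c % p < p)] at h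
            have : a + c % p = p := by omega
            rw [this, Nat.mod_self]
      by_cases hac : p ∣ a + c
      · rw [if_pos hac, if_pos (hiff.mp hac)]; ring
      · rw [if_neg hac, if_neg (fun h => hac (hiff.mpr h))]; ring
    rw [Finset.sum_congr rfl e3, Finset.sum_sub_distrib, Finset.sum_const, card_range,
      Finset.sum_ite_eq', if_pos]
    · simp
    · rw [mem_range]; exact Nat.mod_lt _ hpp.pos
  have hmain := sum_range_le_of_periodic M hMpos G hGper 1 hGB (by
    rw [hperiod]
    refine Finset.prod_nonneg fun p hp => ?_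
    have := (h2 p hp).one_lt
    have : (1:ℝ) < p := by exact_mod_cast this
    linarith) N
  refine hmain.trans (le_of_eq ?_)
  rw [hperiod, mul_one]
  have hMc : (M:ℝ) = ∏ p ∈ s1 ∪ s2, (p:ℝ) := by rw [hM]; push_cast; rfl
  rw [hMc]
  congr 1
  rw [Finset.prod_union hd]
  have hs2 : ∏ p ∈ s2, (1 - 1 / (p:ℝ)) = (∏ p ∈ s2, ((p:ℝ) - 1)) / ∏ p ∈ s2, (p:ℝ) := by
    rw [← Finset.prod_div_distrib]
    refine Finset.prod_congr rfl fun p hp => ?_
    have : (p:ℝ) ≠ 0 := by exact_mod_cast (h2 p hp).ne_zero
    field_simp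
  rw [hs2]
  have hn1 : (∏ p ∈ s1, (p:ℝ)) ≠ 0 := Finset.prod_ne_zero_iff.mpr fun p hp => by
    exact_mod_cast (h1 p hp).ne_zero
  have hn2 : (∏ p ∈ s2, (p:ℝ)) ≠ 0 := Finset.prod_ne_zero_iff.mpr fun p hp => by
    exact_mod_cast (h2 p hp).ne_zero
  field_simp

/-- The elements `b ∈ B` whose shift is allowed in the class `u`. -/
def goodB (s1 : Finset ℕ) (B : Finset ℕ) (c d u : ℕ) : Finset ℕ :=
  B.filter (fun b => ∀ p ∈ s1, ¬ p ∣ u + (c + d * b))

lemma sum_goodB_pow (s1 : Finset ℕ) (h1 : ∀ p ∈ s1, p.Prime) (B : Finset ℕ) (c d r : ℕ) :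
    ∑ u ∈ range (∏ p ∈ s1, p), ((goodB s1 B c d u).card : ℝ) ^ r
      = ∑ b ∈ Fintype.piFinset (fun _ : Fin r => B), ∏ p ∈ s1, ((p:ℝ) - nu (shift c d b) p) := by
  classical
  have e1 : ∀ u, ((goodB s1 B c d u).card : ℝ) ^ r
      = ∑ b ∈ Fintype.piFinset (fun _ : Fin r => B),
        if (∀ i, b i ∈ goodB s1 B c d u) then (1:ℝ) else 0 := by
    intro u
    rw [← Finset.sum_filter, Finset.sum_const, nsmul_eq_mul, mul_one]
    have : (Fintype.piFinset (fun _ : Fin r => B)).filter (fun b => ∀ i, b i ∈ goodB s1 B c d u)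
        = Fintype.piFinset (fun _ : Fin r => goodB s1 B c d u) := by
      ext b
      simp only [mem_filter, Fintype.mem_piFinset]
      constructor
      · exact fun h => h.2
      · intro h
        exact ⟨fun i => (mem_filter.mp (h i)).1, h⟩
    rw [this, Fintype.card_piFinset]
    simp
  simp_rw [e1]
  rw [Finset.sum_comm]
  refine Finset.sum_congr rfl fun b hb => ?_
  rw [Fintype.mem_piFinset] at hb
  have e2 : ∀ u, (if (∀ i, b i ∈ goodB s1 B c d u) then (1:ℝ) else 0)
      = ∏ p ∈ s1, (if (u % p) ∈ Om (shift c d b) p then (0:ℝ) else 1) := by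
    intro u
    have hOm : ∀ p ∈ s1, (u % p ∈ Om (shift c d b) p ↔ ∃ i, p ∣ u + (c + d * b i)) := by
      intro p hp
      rw [mem_Om _ p (h1 p hp)]
      refine exists_congr fun i => ?_
      unfold shift
      norm_cast
    by_cases hall : ∀ i, b i ∈ goodB s1 B c d u
    · rw [if_pos hall]
      symm
      refine Finset.prod_eq_one fun p hp => ?_
      rw [if_neg]
      rw [hOm p hp]
      rintro ⟨i, hi⟩
      exact (mem_filter.mp (hall i)).2 p hp hi
    · rw [if_neg hall]
      push Not at hall
      obtain ⟨i, hi⟩ := hall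
      unfold goodB at hi
      rw [mem_filter, not_and] at hi
      have hi' := hi (hb i)
      push Not at hi'
      obtain ⟨p, hp, hdvd⟩ := hi'
      symm
      refine Finset.prod_eq_zero hp ?_
      rw [if_pos]
      rw [hOm p hp]
      exact ⟨i, hdvd⟩
  simp_rw [e2]
  rw [sum_range_prod_crt s1 h1 (fun p n => if n ∈ Om (shift c d b) p then (0:ℝ) else 1)]
  refine Finset.prod_congr rfl fun p hp => ?_
  have e3 : ∀ a ∈ range p, (if a ∈ Om (shift c d b) p then (0:ℝ) else 1)
      = 1 - (if a ∈ Om (shift c d b) p then (1:ℝ) else 0) := by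
    intro a _
    split_ifs <;> ring
  rw [Finset.sum_congr rfl e3, Finset.sum_sub_distrib, Finset.sum_const, card_range, nsmul_eq_mul,
    mul_one, ← Finset.sum_filter, Finset.sum_const, nsmul_eq_mul, mul_one]
  have : (range p).filter (fun a => a ∈ Om (shift c d b) p) = Om (shift c d b) p := by
    ext a
    simp only [mem_filter, and_iff_right_iff_imp]
    exact fun h => Om_subset _ p (h1 p hp) h
  rw [this, card_Om _ p (h1 p hp)]

end Pool.Agent.HL
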