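import Pool.Agent.Lib.HL.SSBound

/-!
# Bounds for the singular series
-/

set_option autoImplicit false

open Finset Filter Topology

namespace Pool.Agent.HL

open Pool.Agent.Lib.Sieve4

lemma one_sub_sum_le (F : Finset ℕ) (f : ℕ → ℝ) (h0 : ∀ p ∈ F, 0 ≤ f p) (h1 : ∀ p ∈ F, f p ≤ 1) :
    1 - ∑ p ∈ F, f p ≤ ∏ p ∈ F, (1 - f p) := by
  classical
  induction F using Finset.induction_on with
  | empty => simp
  | insert q s hq ih =>
    rw [sum_insert hq, prod_insert hq]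
    have ih' := ih (fun p hp => h0 p (mem_insert_of_mem hp)) (fun p hp => h1 p (mem_insert_of_mem hp))
    have hq0 := h0 q (mem_insert_self _ _)
    have hq1 := h1 q (mem_insert_self _ _)
    have hs0 : 0 ≤ ∑ p ∈ s, f p := Finset.sum_nonneg fun p hp => h0 p (mem_insert_of_mem hp)
    have hP0 : 0 ≤ ∏ p ∈ s, (1 - f p) := Finset.prod_nonneg fun p hp => by
      linarith [h1 p (mem_insert_of_mem hp)]
    nlinarith

lemma prod_loc_tail_ge {r : ℕ} (a : Fin r → ℤ) (y : ℕ) (hy : 1 ≤ y) (hry : r ≤ y) (F : Finset ℕ)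
    (hF : ∀ p ∈ F, p.Prime ∧ y < p) : 1 - (r:ℝ) ^ 2 / y ≤ ∏ p ∈ F, loc a p := by
  classical
  have h1 : ∀ p ∈ F, 1 - (r:ℝ) ^ 2 / (p:ℝ) ^ 2 ≤ loc a p := fun p hp =>
    loc_ge_of_gt a p (hF p hp).1 (by have := (hF p hp).2; omega)
  have h2 : ∀ p ∈ F, (0:ℝ) ≤ (r:ℝ) ^ 2 / (p:ℝ) ^ 2 := fun p _ => by positivity
  have h3 : ∀ p ∈ F, (r:ℝ) ^ 2 / (p:ℝ) ^ 2 ≤ 1 := by
    intro p hp
    have h4 : (r:ℝ) ≤ p := by
      have := (hF p hp).2
      exact_mod_cast (by omega : r ≤ p)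
    have h5 : (0:ℝ) < p := by exact_mod_cast (hF p hp).1.pos
    rw [div_le_one (by positivity)]
    exact pow_le_pow_left₀ (by positivity) h4 2
  have h6 := one_sub_sum_le F (fun p => (r:ℝ) ^ 2 / (p:ℝ) ^ 2) h2 h3
  have h7 : ∏ p ∈ F, (1 - (r:ℝ) ^ 2 / (p:ℝ) ^ 2) ≤ ∏ p ∈ F, loc a p :=
    Finset.prod_le_prod (fun p hp => by linarith [h3 p hp]) h1
  have h8 : ∑ p ∈ F, (r:ℝ) ^ 2 / (p:ℝ) ^ 2 ≤ (r:ℝ) ^ 2 / y := by
    have h9 : ∑ p ∈ F, (r:ℝ) ^ 2 / (p:ℝ) ^ 2 = (r:ℝ) ^ 2 * ∑ p ∈ F, (1:ℝ) / (p:ℝ) ^ 2 := by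
      rw [Finset.mul_sum]
      exact Finset.sum_congr rfl fun p _ => by ring
    have h10 : ∑ p ∈ F, (1:ℝ) / (p:ℝ) ^ 2 ≤ 1 / (y:ℝ) := by
      refine le_trans ?_ (sum_inv_sq_le hy (F.sup id))
      apply Finset.sum_le_sum_of_subset_of_nonneg
      · intro p hp
        rw [mem_Ioc]
        exact ⟨(hF p hp).2, Finset.le_sup (f := id) hp⟩
      · intro _ _ _
        positivity
    rw [h9]
    calc (r:ℝ) ^ 2 * ∑ p ∈ F, (1:ℝ) / (p:ℝ) ^ 2 ≤ (r:ℝ) ^ 2 * (1 / y) := by gcongr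
      _ = _ := by ring
  linarith

/-- The main product. -/
noncomputable def PY (r y : ℕ) : ℝ := ∏ p ∈ Nat.primesLE y, ww (r-1) p

lemma PY_pos (r y : ℕ) : 0 < PY r y :=
  Finset.prod_pos fun _ hp => lt_of_lt_of_le one_pos (one_le_ww _ (Nat.mem_primesLE.1 hp).2)

/-- Lower bound for the singular series of tuples of multiples of the primorial. -/
lemma SS_ge {r : ℕ} (hr : 1 ≤ r) (d y : ℕ) (hd : ∀ p ∈ Nat.primesLE y, p ∣ d)
    (hy : 1 ≤ y) (hry : r ≤ y) (b : Fin r → ℕ) {S : ℝ}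
    (hS : HasProd (fun p : Nat.Primes => loc (shift 0 d b) p) S) :
    PY r y * (1 - (r:ℝ) ^ 2 / y) ≤ S := by
  classical
  have hA : ∀ p ∈ Nat.primesLE y, p.Prime := fun p hp => (Nat.mem_primesLE.1 hp).2
  set F : Finset Nat.Primes := (Nat.primesLE y).attach.map
    ⟨fun p => ⟨p.1, hA p.1 p.2⟩, by
      intro p q h; exact Subtype.ext (congrArg (fun t : Nat.Primes => (t : ℕ)) h)⟩ with hF
  have hFprod : ∏ p ∈ F, loc (shift 0 d b) (p : ℕ) = PY r y := by
    rw [hF, Finset.prod_map]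
    have h1 : ∏ p ∈ Nat.primesLE y, loc (shift 0 d b) p = PY r y := by
      unfold PY
      refine Finset.prod_congr rfl fun p hp => ?_
      exact loc_shift_of_dvd hr 0 d b (hA p hp) (hd p hp)
    rw [← h1]
    exact Finset.prod_attach (Nat.primesLE y) (fun p => loc (shift 0 d b) p)
  have hmemF : ∀ p : Nat.Primes, p ∉ F → y < (p:ℕ) := by
    intro p hp
    by_contra hcon
    apply hp
    rw [hF, Finset.mem_map]
    exact ⟨⟨(p:ℕ), Nat.mem_primesLE.2 ⟨by omega, p.2⟩⟩, mem_attach _ _, rfl⟩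
  refine ge_of_tendsto hS ?_
  rw [SummationFilter.unconditional_filter, Filter.eventually_atTop]
  refine ⟨F, fun F' hF' => ?_⟩
  rw [← Finset.prod_sdiff hF', hFprod, mul_comm]
  apply mul_le_mul_of_nonneg_right _ (PY_pos r y).le
  have h1 := prod_loc_tail_ge (shift 0 d b) y hy hry
    ((F' \ F).map ⟨fun p : Nat.Primes => (p : ℕ), Nat.Primes.coe_nat_injective⟩)
    (by
      intro p hp
      rw [Finset.mem_map] at hp
      obtain ⟨q, hq, rfl⟩ := hp
      exact ⟨q.2, hmemF q (Finset.mem_sdiff.mp hq).2⟩)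
  rw [Finset.prod_map] at h1
  exact h1

lemma card_badPrimes_le {r : ℕ} (b : Fin r → ℕ) (y H : ℕ) (hy : 1 ≤ y)
    (hb : b ∈ injTuples r (Icc 1 H)) :
    ((badPrimes b y H).card : ℝ) * Real.log y ≤ (r:ℝ) ^ 2 * Real.log H := by
  classical
  rw [mem_injTuples] at hb
  set s : Finset (Fin r × Fin r) := univ.filter (fun w => w.1 ≠ w.2) with hs
  have hsub : badPrimes b y H ⊆ s.biUnion (fun w => (primesIoc y H).filter
      (fun p => p ∣ nd (b w.1) (b w.2))) := by
    intro p hp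
    unfold badPrimes at hp
    rw [mem_filter] at hp
    obtain ⟨h1, i, j, hij, hd⟩ := hp
    rw [mem_biUnion]
    exact ⟨(i, j), by rw [hs, mem_filter]; exact ⟨mem_univ _, hij⟩, mem_filter.mpr ⟨h1, hd⟩⟩
  have hlogy : 0 ≤ Real.log y := Real.log_natCast_nonneg y
  have hone : ∀ w ∈ s, (((primesIoc y H).filter (fun p => p ∣ nd (b w.1) (b w.2))).card : ℝ)
      * Real.log y ≤ Real.log H := by
    intro w hw
    rw [hs, mem_filter] at hw
    have hne : b w.1 ≠ b w.2 := fun h => hw.2 (hb.2 h)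
    have hpos := nd_pos hne
    have hlt := nd_lt (hb.1 w.1) (hb.1 w.2)
    set F := (primesIoc y H).filter (fun p => p ∣ nd (b w.1) (b w.2)) with hF
    have hdvd : ∏ p ∈ F, p ∣ nd (b w.1) (b w.2) := by
      apply Finset.prod_primes_dvd
      · intro p hp
        exact (mem_primesIoc.mp (mem_filter.mp hp).1).2.prime
      · intro p hp
        exact (mem_filter.mp hp).2
    have hle : y ^ F.card ≤ nd (b w.1) (b w.2) := by
      refine le_trans ?_ (Nat.le_of_dvd hpos hdvd)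
      apply Finset.pow_card_le_prod
      intro p hp
      exact (mem_primesIoc.mp (mem_filter.mp hp).1).1.1.le
    rw [← Real.log_pow]
    apply Real.log_le_log
    · have : (0:ℝ) < y := by exact_mod_cast hy
      positivity
    · exact_mod_cast (hle.trans hlt.le)
  have hcard : ((badPrimes b y H).card : ℝ) ≤ ∑ w ∈ s,
      (((primesIoc y H).filter (fun p => p ∣ nd (b w.1) (b w.2))).card : ℝ) := by
    have h1 := (Finset.card_le_card hsub).trans Finset.card_biUnion_le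
    exact_mod_cast h1
  have hscard : (s.card : ℝ) ≤ (r:ℝ) ^ 2 := by
    have h1 : s.card ≤ (univ : Finset (Fin r × Fin r)).card := Finset.card_filter_le _ _
    have h2 : (univ : Finset (Fin r × Fin r)).card = r ^ 2 := by
      rw [card_univ, Fintype.card_prod, Fintype.card_fin, sq]
    rw [h2] at h1
    exact_mod_cast h1
  have hlogH : 0 ≤ Real.log H := Real.log_natCast_nonneg H
  calc ((badPrimes b y H).card : ℝ) * Real.log y
      ≤ (∑ w ∈ s, (((primesIoc y H).filter (fun p => p ∣ nd (b w.1) (b w.2))).card : ℝ)) *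
        Real.log y := by gcongr
    _ = ∑ w ∈ s, (((primesIoc y H).filter (fun p => p ∣ nd (b w.1) (b w.2))).card : ℝ) *
        Real.log y := by rw [Finset.sum_mul]
    _ ≤ ∑ w ∈ s, Real.log H := Finset.sum_le_sum hone
    _ = s.card * Real.log H := by rw [Finset.sum_const, nsmul_eq_mul]
    _ ≤ (r:ℝ) ^ 2 * Real.log H := by gcongr

lemma ww_le_exp (k : ℕ) {p : ℕ} (hp : p.Prime) : ww k p ≤ Real.exp (2 * k / p) := by
  have hp0 : (0:ℝ) < p := by exact_mod_cast hp.pos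
  have h1 : ww k p ≤ (1 + 2 / (p:ℝ)) ^ k := by
    unfold ww
    exact pow_le_pow_left₀ (by linarith [one_le_inv hp]) (inv_le_aux hp) k
  refine h1.trans ?_
  have h2 : 1 + 2 / (p:ℝ) ≤ Real.exp (2 / p) := by
    have := Real.add_one_le_exp (2 / (p:ℝ))
    linarith
  calc (1 + 2 / (p:ℝ)) ^ k ≤ (Real.exp (2 / p)) ^ k := pow_le_pow_left₀ (by positivity) h2 k
    _ = Real.exp (2 * k / p) := by
      rw [← Real.exp_nat_mul]
      congr 1
      ring

/-- Upper bound for the singular series of tuples in a box. -/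
lemma SS_upper {r : ℕ} (hr : 1 ≤ r) (y H : ℕ) (hy : 1 ≤ y) (b : Fin r → ℕ)
    (hb : b ∈ injTuples r (Icc 1 H)) {S : ℝ}
    (hS : HasProd (fun p : Nat.Primes => loc (shift 0 1 b) p) S) :
    S ≤ PY r y * Real.exp (2 * r * (badPrimes b y H).card / y) := by
  have h1 := SS_le hr 0 1 H (by norm_num) b hb y hS
  refine h1.trans ?_
  have h2 : WW (Nat.primesLE y) 0 1 b ≤ PY r y := by
    unfold WW PY
    rw [Nat.primeFactors_one, Finset.union_empty]
    exact Finset.prod_le_prod (fun p hp => loc_nonneg _ (Nat.mem_primesLE.1 hp).2)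
      (fun p hp => loc_le_ww hr _ (Nat.mem_primesLE.1 hp).2)
  have hy0 : (0:ℝ) < y := by exact_mod_cast hy
  have h3 : ∏ p ∈ badPrimes b y H, ww (r-1) p
      ≤ Real.exp (2 * r * (badPrimes b y H).card / y) := by
    have h4 : ∀ p ∈ badPrimes b y H, ww (r-1) p ≤ Real.exp (2 * r / y) := by
      intro p hp
      have hp' := mem_primesIoc.mp (mem_filter.mp hp).1
      refine (ww_le_exp (r-1) hp'.2).trans ?_
      apply Real.exp_le_exp.mpr
      have h5 : (y:ℝ) ≤ p := by exact_mod_cast hp'.1.1.le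
      have h6 : ((r - 1 : ℕ) : ℝ) ≤ r := by exact_mod_cast Nat.sub_le r 1
      gcongr
    calc ∏ p ∈ badPrimes b y H, ww (r-1) p ≤ ∏ p ∈ badPrimes b y H, Real.exp (2 * r / y) := by
          apply Finset.prod_le_prod
          · intro p hp
            exact zero_le_one.trans (one_le_ww _ (mem_primesIoc.mp (mem_filter.mp hp).1).2)
          · exact h4
      _ = Real.exp (2 * r * (badPrimes b y H).card / y) := by
          rw [Finset.prod_const, ← Real.exp_nat_mul]
          congr 1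
          ring
  calc WW (Nat.primesLE y) 0 1 b * ∏ p ∈ badPrimes b y H, ww (r-1) p
      ≤ PY r y * Real.exp (2 * r * (badPrimes b y H).card / y) := by
        apply mul_le_mul h2 h3 _ (PY_pos r y).le
        exact zero_le_one.trans (one_le_prod_bad b y H (r-1))

end Pool.Agent.HL
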