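import Pool.Agent.Lib.HL.Desc
import Pool.Agent.Lib.HL.Classes

/-!
# The lower bound for the sum of tuple counts over a set of shifts
-/

set_option autoImplicit false

open Finset

namespace Pool.Agent.HL

open Pool.Agent.Lib.Sieve4

/-- number of `n ∈ [1, x]` with all `n + a i` prime. -/
def tcount {r : ℕ} (a : Fin r → ℤ) (x : ℕ) : ℕ :=
  ((Icc 1 x).filter (fun n : ℕ => ∀ i, Nat.Prime (((n : ℤ) + a i).toNat))).card

/-- number of `b ∈ B` with `n + (c + d b)` prime. -/
def XX (B : Finset ℕ) (c d n : ℕ) : ℕ := (B.filter (fun b => (n + (c + d * b)).Prime)).card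

lemma sum_desc_eq (B : Finset ℕ) (c d r x : ℕ) :
    ∑ n ∈ Icc 1 x, (XX B c d n).descFactorial r = ∑ b ∈ injTuples r B, tcount (shift c d b) x := by
  classical
  have e1 : ∀ n, (XX B c d n).descFactorial r
      = ∑ b ∈ injTuples r B, if (∀ i, (n + (c + d * b i)).Prime) then 1 else 0 := by
    intro n
    unfold XX
    rw [← card_injTuples, ← Finset.sum_filter, Finset.sum_const, smul_eq_mul, mul_one]
    congr 1
    ext b
    rw [mem_injTuples, mem_filter, mem_injTuples]
    simp only [mem_filter]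
    constructor
    · rintro ⟨h1, h2⟩
      exact ⟨⟨fun i => (h1 i).1, h2⟩, fun i => (h1 i).2⟩
    · rintro ⟨⟨h1, h2⟩, h3⟩
      exact ⟨fun i => ⟨h1 i, h3 i⟩, h2⟩
  simp_rw [e1]
  rw [Finset.sum_comm]
  refine Finset.sum_congr rfl fun b _ => ?_
  unfold tcount
  rw [Finset.card_filter]
  refine Finset.sum_congr rfl fun n _ => ?_
  have : ∀ i, (((n:ℤ) + shift c d b i).toNat) = n + (c + d * b i) := by
    intro i
    unfold shift
    omega
  simp only [this]

/-- The integers in `(D0, x]` in the class `u` and coprime (after shift) to the primes of `s2`. -/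
def NN (s1 s2 : Finset ℕ) (c D0 x u : ℕ) : Finset ℕ :=
  (Ioc D0 x).filter (fun n => (∀ p ∈ s1, n % p = u % p) ∧ (∀ p ∈ s2, ¬ p ∣ n + c))

lemma modEq_prod_of_forall (s1 : Finset ℕ) (h1 : ∀ p ∈ s1, p.Prime) (n u : ℕ)
    (h : ∀ p ∈ s1, n % p = u % p) : n ≡ u [MOD ∏ p ∈ s1, p] := by
  classical
  induction s1 using Finset.induction_on with
  | empty => simp [Nat.modEq_one]
  | insert q s hq ih =>
    rw [prod_insert hq]
    have hco : Nat.Coprime q (∏ p ∈ s, p) := by
      apply Nat.Coprime.prod_right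
      intro p hp
      rw [Nat.coprime_primes (h1 q (mem_insert_self _ _)) (h1 p (mem_insert_of_mem hp))]
      rintro rfl
      exact hq hp
    rw [← Nat.modEq_and_modEq_iff_modEq_mul hco]
    exact ⟨h q (mem_insert_self _ _), ih (fun p hp => h1 p (mem_insert_of_mem hp))
      (fun p hp => h p (mem_insert_of_mem hp))⟩

lemma sum_classes_le (s1 s2 : Finset ℕ) (h1 : ∀ p ∈ s1, p.Prime) (c D0 x : ℕ) (f : ℕ → ℝ)
    (hf : ∀ n, 0 ≤ f n) :
    ∑ u ∈ range (∏ p ∈ s1, p), ∑ n ∈ NN s1 s2 c D0 x u, f n ≤ ∑ n ∈ Icc 1 x, f n := by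
  classical
  unfold NN
  simp_rw [Finset.sum_filter]
  rw [Finset.sum_comm]
  have hsub : Ioc D0 x ⊆ Icc 1 x := by
    intro n hn
    rw [mem_Ioc] at hn
    rw [mem_Icc]
    omega
  refine le_trans ?_ (Finset.sum_le_sum_of_subset_of_nonneg hsub fun n _ _ => hf n)
  refine Finset.sum_le_sum fun n _ => ?_
  rw [← Finset.sum_filter, Finset.sum_const, nsmul_eq_mul]
  have hcard : ((range (∏ p ∈ s1, p)).filter
      (fun u => (∀ p ∈ s1, n % p = u % p) ∧ (∀ p ∈ s2, ¬ p ∣ n + c))).card ≤ 1 := by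
    rw [Finset.card_le_one]
    intro u hu v hv
    rw [mem_filter, mem_range] at hu hv
    have e1 := modEq_prod_of_forall s1 h1 n u hu.2.1
    have e2 := modEq_prod_of_forall s1 h1 n v hv.2.1
    have e3 := e1.symm.trans e2
    exact Nat.ModEq.eq_of_lt_of_lt e3 hu.1 hv.1
  have : (((range (∏ p ∈ s1, p)).filter
      (fun u => (∀ p ∈ s1, n % p = u % p) ∧ (∀ p ∈ s2, ¬ p ∣ n + c))).card : ℝ) ≤ 1 := by
    exact_mod_cast hcard
  calc _ ≤ 1 * f n := mul_le_mul_of_nonneg_right this (hf n)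
    _ = f n := one_mul _

/-- Total number of primes counted in a class. -/
lemma sum_XX_ge (s1 : Finset ℕ) (B : Finset ℕ) (c d D0 x u : ℕ)
    (hd : 1 ≤ d) (hD0 : d ≤ D0) {τ : ℝ}
    (hT : ∀ b ∈ goodB s1 B c d u, τ ≤ (((Ioc D0 x).filter (fun n => (∀ p ∈ s1, n % p = u % p) ∧
      (n + (c + d * b)).Prime)).card : ℝ)) :
    τ * (goodB s1 B c d u).card ≤ ∑ n ∈ NN s1 (d.primeFactors \ s1) c D0 x u, (XX B c d n : ℝ) := by
  classical
  have e1 : ∑ n ∈ NN s1 (d.primeFactors \ s1) c D0 x u, (XX B c d n : ℝ)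
      = ∑ b ∈ B, (((NN s1 (d.primeFactors \ s1) c D0 x u).filter
        (fun n => (n + (c + d * b)).Prime)).card : ℝ) := by
    unfold XX
    simp_rw [Finset.card_filter]
    push_cast
    rw [Finset.sum_comm]
  rw [e1]
  have hsub : goodB s1 B c d u ⊆ B := filter_subset _ _
  refine le_trans ?_ (Finset.sum_le_sum_of_subset_of_nonneg hsub fun _ _ _ => by positivity)
  rw [mul_comm, ← nsmul_eq_mul]
  refine Finset.card_nsmul_le_sum _ _ _ fun b hb => ?_
  refine (hT b hb).trans ?_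
  have : ((Ioc D0 x).filter (fun n => (∀ p ∈ s1, n % p = u % p) ∧ (n + (c + d * b)).Prime))
      ⊆ ((NN s1 (d.primeFactors \ s1) c D0 x u).filter (fun n => (n + (c + d * b)).Prime)) := by
    intro n hn
    rw [mem_filter] at hn
    rw [mem_filter]
    unfold NN
    rw [mem_filter]
    refine ⟨⟨hn.1, hn.2.1, ?_⟩, hn.2.2⟩
    intro p hp hdvd
    rw [mem_sdiff, Nat.mem_primeFactors] at hp
    have hpd : p ∣ d := hp.1.2.1
    have h2 : p ∣ n + (c + d * b) := by
      rw [← Nat.add_assoc]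
      exact Dvd.dvd.add hdvd (hpd.mul_right b) 
    have h3 : p = n + (c + d * b) := (Nat.prime_dvd_prime_iff_eq hp.1.1 hn.2.2).mp h2
    have h4 : p ≤ d := Nat.le_of_dvd (by omega) hpd
    have h5 := (mem_Ioc.mp hn.1).1
    have : n ≤ n + (c + d * b) := Nat.le_add_right _ _
    omega
  exact_mod_cast Finset.card_le_card this

/-- The convexity estimate in one class. -/
lemma class_lower (s1 : Finset ℕ) (B : Finset ℕ) (c d D0 x u r : ℕ) (hr : 1 ≤ r)
    (hd : 1 ≤ d) (hD0 : d ≤ D0) {τ N0 : ℝ} (hτ : 0 ≤ τ) (hN0 : 0 < N0)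
    (hN : ((NN s1 (d.primeFactors \ s1) c D0 x u).card : ℝ) ≤ N0)
    (hT : ∀ b ∈ goodB s1 B c d u, τ ≤ (((Ioc D0 x).filter (fun n => (∀ p ∈ s1, n % p = u % p) ∧
      (n + (c + d * b)).Prime)).card : ℝ)) :
    N0 * ((τ * (goodB s1 B c d u).card / N0) ^ r
      - (r:ℝ) ^ 2 * (τ * (goodB s1 B c d u).card / N0) ^ (r - 1))
      ≤ ∑ n ∈ NN s1 (d.primeFactors \ s1) c D0 x u, ((XX B c d n).descFactorial r : ℝ) := by
  set μ := τ * (goodB s1 B c d u).card / N0 with hμ
  have hr1 : (1:ℝ) ≤ r := by exact_mod_cast hr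
  have hμ0 : 0 ≤ μ := by positivity
  have hnn : 0 ≤ ∑ n ∈ NN s1 (d.primeFactors \ s1) c D0 x u, ((XX B c d n).descFactorial r : ℝ) :=
    Finset.sum_nonneg fun _ _ => by positivity
  rcases lt_or_ge μ r with h | h
  · have h2 : μ ^ r - (r:ℝ) ^ 2 * μ ^ (r - 1) ≤ 0 := by
      obtain ⟨k, rfl⟩ : ∃ k, r = k + 1 := ⟨r - 1, by omega⟩
      simp only [Nat.add_sub_cancel]
      rw [pow_succ]
      have h3 : 0 ≤ μ ^ k := by positivity
      have h4 : μ ≤ ((k + 1 : ℕ) : ℝ) ^ 2 := by nlinarith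
      nlinarith
    have h3 : N0 * (μ ^ r - (r:ℝ) ^ 2 * μ ^ (r - 1)) ≤ 0 := mul_nonpos_of_nonneg_of_nonpos hN0.le h2
    linarith
  · have h1 := pow_sub_ge r hr h
    set m := μ - r with hm
    have hm0 : 0 ≤ m := by rw [hm]; linarith
    have hsum : (r:ℝ) * m ^ (r-1) * ((∑ n ∈ NN s1 (d.primeFactors \ s1) c D0 x u, (XX B c d n : ℝ))
        - r * (NN s1 (d.primeFactors \ s1) c D0 x u).card)
        - (r - 1) * m ^ r * (NN s1 (d.primeFactors \ s1) c D0 x u).card
        ≤ ∑ n ∈ NN s1 (d.primeFactors \ s1) c D0 x u, ((XX B c d n).descFactorial r : ℝ) := by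
      have h2 : ∑ n ∈ NN s1 (d.primeFactors \ s1) c D0 x u,
          ((r : ℝ) * m ^ (r - 1) * ((XX B c d n : ℝ) - r) - (r - 1) * m ^ r)
          ≤ ∑ n ∈ NN s1 (d.primeFactors \ s1) c D0 x u, ((XX B c d n).descFactorial r : ℝ) :=
        Finset.sum_le_sum fun n _ => desc_ge r hr _ hm0
      refine le_trans (le_of_eq ?_) h2
      rw [Finset.sum_sub_distrib, ← Finset.mul_sum, Finset.sum_sub_distrib, Finset.sum_const,
        Finset.sum_const, nsmul_eq_mul, nsmul_eq_mul]
      ring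
    have hTT := sum_XX_ge s1 B c d D0 x u hd hD0 hT
    have e1 : τ * (goodB s1 B c d u).card = μ * N0 := by rw [hμ]; field_simp
    rw [e1] at hTT
    have hm1 : 0 ≤ m ^ (r-1) := by positivity
    have hmr : m ^ r = m ^ (r-1) * m := by
      rw [← pow_succ]; congr 1; omega
    have h5 : N0 * m ^ r ≤ (r:ℝ) * m ^ (r-1) * ((∑ n ∈ NN s1 (d.primeFactors \ s1) c D0 x u, (XX B c d n : ℝ))
        - r * (NN s1 (d.primeFactors \ s1) c D0 x u).card)
        - (r - 1) * m ^ r * (NN s1 (d.primeFactors \ s1) c D0 x u).card := by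
      set Nc := ((NN s1 (d.primeFactors \ s1) c D0 x u).card : ℝ) with hNc
      set TT := ∑ n ∈ NN s1 (d.primeFactors \ s1) c D0 x u, (XX B c d n : ℝ) with hTTdef
      have h6 : N0 * m ≤ TT - r * Nc - (N0 - Nc) * 0 := by
        have : N0 * m = μ * N0 - r * N0 := by rw [hm]; ring
        rw [this]
        nlinarith
      have h7 : (r:ℝ) * m ^ (r-1) * (N0 * m) ≤ (r:ℝ) * m ^ (r-1) * (TT - r * Nc) := by
        apply mul_le_mul_of_nonneg_left _ (by positivity)
        linarith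
      have h8 : (r - 1) * m ^ r * Nc ≤ ((r:ℝ) - 1) * m ^ r * N0 := by
        apply mul_le_mul_of_nonneg_left hN
        exact mul_nonneg (by linarith) (by positivity)
      calc N0 * m ^ r = (r:ℝ) * m ^ (r-1) * (N0 * m) - ((r:ℝ) - 1) * m ^ r * N0 := by
            rw [hmr]; ring
        _ ≤ _ := by linarith
    calc N0 * (μ ^ r - (r:ℝ) ^ 2 * μ ^ (r - 1)) ≤ N0 * m ^ r :=
          mul_le_mul_of_nonneg_left h1 hN0.le
      _ ≤ _ := h5.trans hsum

/-- The product `∏_{p ∈ s1} (p or p - 1)` counting the classes that can contain good elements. -/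
noncomputable def VV (s1 : Finset ℕ) (d : ℕ) : ℝ := ∏ p ∈ s1, (if p ∣ d then (p:ℝ) - 1 else p)

/-- classes `u` such that `u + c` is coprime to the common primes. -/
def Vset (s1 : Finset ℕ) (c d : ℕ) : Finset ℕ :=
  (range (∏ p ∈ s1, p)).filter (fun u => ∀ p ∈ s1, p ∣ d → ¬ p ∣ u + c)

lemma card_Vset (s1 : Finset ℕ) (h1 : ∀ p ∈ s1, p.Prime) (c d : ℕ) :
    ((Vset s1 c d).card : ℝ) = VV s1 d := by
  classical
  have e1 : ((Vset s1 c d).card : ℝ) = ∑ u ∈ range (∏ p ∈ s1, p),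
      ∏ p ∈ s1, (if p ∣ d ∧ p ∣ (u % p) + c then (0:ℝ) else 1) := by
    unfold Vset
    rw [Finset.card_filter]
    push_cast
    refine Finset.sum_congr rfl fun u _ => ?_
    have hmod : ∀ p, (p ∣ (u % p) + c ↔ p ∣ u + c) := by
      intro p
      rw [Nat.dvd_iff_mod_eq_zero, Nat.dvd_iff_mod_eq_zero, Nat.mod_add_mod]
    by_cases h : ∀ p ∈ s1, p ∣ d → ¬ p ∣ u + c
    · rw [if_pos h]
      symm
      refine Finset.prod_eq_one fun p hp => ?_
      rw [if_neg]
      rintro ⟨h2, h3⟩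
      exact h p hp h2 ((hmod p).mp h3)
    · rw [if_neg h]
      push Not at h
      obtain ⟨p, hp, hpd, hpu⟩ := h
      symm
      refine Finset.prod_eq_zero hp ?_
      rw [if_pos ⟨hpd, (hmod p).mpr hpu⟩]
  rw [e1, sum_range_prod_crt s1 h1 (fun p n => if p ∣ d ∧ p ∣ n + c then (0:ℝ) else 1)]
  unfold VV
  refine Finset.prod_congr rfl fun p hp => ?_
  have hpp := h1 p hp
  by_cases hpd : p ∣ d
  · simp only [hpd, true_and, if_true]
    -- number of a < p with p ∤ a + c is p - 1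
    have h := classCount_le ∅ {p} (by simp) (by simpa using hpp) (by simp) 0 c 0
    have e3 : ∀ a ∈ range p, (if p ∣ a + c then (0:ℝ) else 1)
        = 1 - (if a = (p - c % p) % p then 1 else 0) := by
      intro a ha
      rw [mem_range] at ha
      have hiff : p ∣ a + c ↔ a = (p - c % p) % p := by
        have hcp := Nat.mod_lt c hpp.pos
        rw [Nat.dvd_iff_mod_eq_zero, Nat.add_mod, Nat.mod_eq_of_lt ha]
        constructor
        · intro h
          rcases Nat.eq_zero_or_pos (c % p) with h0 | h0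
          · rw [h0] at h ⊢
            simp only [Nat.add_zero, Nat.sub_zero, Nat.mod_self] at h ⊢
            rwa [Nat.mod_eq_of_lt ha] at h
          · rw [Nat.mod_eq_of_lt (by omega : p - c % p < p)]
            have hdvd := Nat.dvd_of_mod_eq_zero h
            obtain ⟨k, hk⟩ := hdvd
            have hk1 : k = 1 := by
              rcases k with _ | _ | k
              · omega
              · rfl
              · exfalso
                have : p * (k + 1 + 1) ≥ p * 2 := Nat.mul_le_mul_left _ (by omega)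
                omega
            subst hk1
            omega
        · intro h
          rcases Nat.eq_zero_or_pos (c % p) with h0 | h0
          · rw [h0] at h ⊢
            simp only [Nat.sub_zero, Nat.mod_self] at h
            subst h
            simp
          · rw [Nat.mod_eq_of_lt (by omega : p - c % p < p)] at h
            have : a + c % p = p := by omega
            rw [this, Nat.mod_self]
      by_cases hac : p ∣ a + c
      · rw [if_pos hac, if_pos (hiff.mp hac)]; ring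
      · rw [if_neg hac, if_neg (fun h => hac (hiff.mpr h))]; ring
    rw [Finset.sum_congr rfl e3, Finset.sum_sub_distrib, Finset.sum_const, card_range,
      Finset.sum_ite_eq', if_pos]
    · simp
    · rw [mem_range]; exact Nat.mod_lt _ hpp.pos
  · simp only [hpd, false_and, if_false]
    simp

lemma goodB_eq_empty (s1 : Finset ℕ) (B : Finset ℕ) (c d u : ℕ)
    (hu : u ∈ range (∏ p ∈ s1, p)) (hV : u ∉ Vset s1 c d) : goodB s1 B c d u = ∅ := by
  unfold Vset at hV
  rw [mem_filter, not_and] at hV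
  have h := hV hu
  push Not at h
  obtain ⟨p, hp, hpd, hpu⟩ := h
  unfold goodB
  rw [Finset.filter_eq_empty_iff]
  intro b _ hall
  apply hall p hp
  rw [← Nat.add_assoc]
  exact Dvd.dvd.add hpu (hpd.mul_right b)

lemma sum_goodB (s1 : Finset ℕ) (h1 : ∀ p ∈ s1, p.Prime) (B : Finset ℕ) (c d : ℕ) :
    ∑ u ∈ range (∏ p ∈ s1, p), ((goodB s1 B c d u).card : ℝ) = B.card * ∏ p ∈ s1, ((p:ℝ) - 1) := by
  have h := sum_goodB_pow s1 h1 B c d 1
  simp only [pow_one] at h
  rw [h]
  have : ∀ b ∈ Fintype.piFinset (fun _ : Fin 1 => B), ∏ p ∈ s1, ((p:ℝ) - nu (shift c d b) p)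
      = ∏ p ∈ s1, ((p:ℝ) - 1) := by
    intro b _
    refine Finset.prod_congr rfl fun p _ => ?_
    have h1 : nu (shift c d b) p = 1 := by
      apply le_antisymm (nu_le _ _) (nu_pos le_rfl _ _)
    rw [h1]
    simp
  rw [Finset.sum_congr rfl this, Finset.sum_const, nsmul_eq_mul, Fintype.card_piFinset]
  simp

/-- Comparison of the power sums. -/
lemma sum_pow_compare (s1 : Finset ℕ) (h1 : ∀ p ∈ s1, p.Prime) (B : Finset ℕ) (c d r : ℕ)
    (hr : 2 ≤ r) :
    (B.card * ∏ p ∈ s1, ((p:ℝ) - 1)) *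
      ∑ u ∈ range (∏ p ∈ s1, p), ((goodB s1 B c d u).card : ℝ) ^ (r - 1)
      ≤ VV s1 d * ∑ u ∈ range (∏ p ∈ s1, p), ((goodB s1 B c d u).card : ℝ) ^ r := by
  classical
  have hsub : Vset s1 c d ⊆ range (∏ p ∈ s1, p) := filter_subset _ _
  have red : ∀ k, 1 ≤ k → ∑ u ∈ range (∏ p ∈ s1, p), ((goodB s1 B c d u).card : ℝ) ^ k
      = ∑ u ∈ Vset s1 c d, ((goodB s1 B c d u).card : ℝ) ^ k := by
    intro k hk
    symm
    refine Finset.sum_subset hsub fun u hu hV => ?_
    rw [goodB_eq_empty s1 B c d u hu hV]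
    simp
    omega
  have red1 := red 1 le_rfl
  simp only [pow_one] at red1
  rw [← sum_goodB s1 h1 B c d, red1, red (r-1) (by omega), red r (by omega), ← card_Vset s1 h1 c d]
  have hmono : MonovaryOn (fun u => ((goodB s1 B c d u).card : ℝ))
      (fun u => ((goodB s1 B c d u).card : ℝ) ^ (r-1)) (Vset s1 c d) := by
    intro u _ v _ huv
    simp only at huv
    by_contra hcon
    push Not at hcon
    have : ((goodB s1 B c d v).card : ℝ) ^ (r-1) ≤ ((goodB s1 B c d u).card : ℝ) ^ (r-1) := by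
      apply pow_le_pow_left₀ (by positivity) hcon.le
    linarith
  have := hmono.sum_mul_sum_le_card_mul_sum
  refine this.trans (le_of_eq ?_)
  congr 1
  refine Finset.sum_congr rfl fun u _ => ?_
  rw [← pow_succ']
  congr 1
  omega

/-- The power sum is at least what Jensen's inequality gives. -/
lemma sum_pow_ge (s1 : Finset ℕ) (h1 : ∀ p ∈ s1, p.Prime) (B : Finset ℕ) (c d r : ℕ)
    (hr : 1 ≤ r) :
    (B.card * ∏ p ∈ s1, ((p:ℝ) - 1)) ^ r
      ≤ VV s1 d ^ (r - 1) * ∑ u ∈ range (∏ p ∈ s1, p), ((goodB s1 B c d u).card : ℝ) ^ r := by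
  classical
  have hsub : Vset s1 c d ⊆ range (∏ p ∈ s1, p) := filter_subset _ _
  have red : ∀ k, 1 ≤ k → ∑ u ∈ range (∏ p ∈ s1, p), ((goodB s1 B c d u).card : ℝ) ^ k
      = ∑ u ∈ Vset s1 c d, ((goodB s1 B c d u).card : ℝ) ^ k := by
    intro k hk
    symm
    refine Finset.sum_subset hsub fun u hu hV => ?_
    rw [goodB_eq_empty s1 B c d u hu hV]
    simp
    omega
  have red1 := red 1 le_rfl
  simp only [pow_one] at red1
  rw [← sum_goodB s1 h1 B c d, red1, red r (by omega), ← card_Vset s1 h1 c d]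
  obtain ⟨k, rfl⟩ : ∃ k, r = k + 1 := ⟨r - 1, by omega⟩
  simp only [Nat.add_sub_cancel]
  exact pow_sum_le_card_mul_sum_pow (fun u _ => by positivity) k

end Pool.Agent.HL
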