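import Pool.Agent.Lib.HL.Lower

/-!
# The lower bound for the sum of tuple counts over a set of shifts: main form
-/

set_option autoImplicit false

open Finset

namespace Pool.Agent.HL

open Pool.Agent.Lib.Sieve4

/-- The partial singular series over the primes in `s1` and the primes dividing `d`. -/
noncomputable def WW {r : ℕ} (s1 : Finset ℕ) (c d : ℕ) (b : Fin r → ℕ) : ℝ :=
  ∏ p ∈ s1 ∪ d.primeFactors, loc (shift c d b) p

/-- `∏_{p ∣ d} (1 - 1/p)`. -/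
noncomputable def DD1 (d : ℕ) : ℝ := ∏ p ∈ d.primeFactors, (1 - 1 / (p:ℝ))

lemma DD1_pos (d : ℕ) : 0 < DD1 d :=
  Finset.prod_pos fun _ hp => one_sub_inv_pos (Nat.prime_of_mem_primeFactors hp)

lemma DD1_le_one (d : ℕ) : DD1 d ≤ 1 :=
  Finset.prod_le_one (fun _ hp => (one_sub_inv_pos (Nat.prime_of_mem_primeFactors hp)).le)
    (fun _ _ => one_sub_inv_le_one)

lemma nu_shift_of_dvd {r : ℕ} (hr : 1 ≤ r) (c d : ℕ) (b : Fin r → ℕ) {p : ℕ} (hpd : p ∣ d) :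
    nu (shift c d b) p = 1 := by
  apply le_antisymm _ (nu_pos hr _ _)
  unfold nu
  rw [Finset.card_le_one]
  intro x hx y hy
  rw [mem_image] at hx hy
  obtain ⟨i, _, rfl⟩ := hx
  obtain ⟨j, _, rfl⟩ := hy
  unfold shift
  have hd0 : ((d : ℕ) : ZMod p) = 0 := (ZMod.natCast_eq_zero_iff d p).mpr hpd
  push_cast
  rw [hd0]
  ring

lemma loc_shift_of_dvd {r : ℕ} (hr : 1 ≤ r) (c d : ℕ) (b : Fin r → ℕ) {p : ℕ} (hp : p.Prime)
    (hpd : p ∣ d) : loc (shift c d b) p = ((1 - 1 / (p:ℝ))⁻¹) ^ (r - 1) := by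
  unfold loc
  rw [nu_shift_of_dvd hr c d b hpd]
  obtain ⟨k, rfl⟩ : ∃ k, r = k + 1 := ⟨r - 1, by omega⟩
  simp only [Nat.add_sub_cancel, Nat.cast_one]
  rw [pow_succ]
  have := (one_sub_inv_pos hp).ne'
  field_simp

/-- The power sum over classes is the sum of partial singular series. -/
lemma sum_WW_eq (s1 : Finset ℕ) (h1 : ∀ p ∈ s1, p.Prime) (B : Finset ℕ) (c d r : ℕ)
    (hr : 1 ≤ r) :
    ∑ b ∈ Fintype.piFinset (fun _ : Fin r => B), WW s1 c d b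
      = (∏ p ∈ s1, (p:ℝ)) ^ (r - 1) * ((∏ p ∈ s1, ((p:ℝ) - 1))⁻¹) ^ r *
        ((∏ p ∈ d.primeFactors \ s1, (1 - 1 / (p:ℝ)))⁻¹) ^ (r - 1) *
        ∑ u ∈ range (∏ p ∈ s1, p), ((goodB s1 B c d u).card : ℝ) ^ r := by
  classical
  rw [sum_goodB_pow s1 h1 B c d r, Finset.mul_sum]
  refine Finset.sum_congr rfl fun b _ => ?_
  unfold WW
  have hun : s1 ∪ d.primeFactors = s1 ∪ (d.primeFactors \ s1) := by
    rw [Finset.union_sdiff_self_eq_union]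
  rw [hun, Finset.prod_union Finset.disjoint_sdiff]
  have e1 : ∏ p ∈ d.primeFactors \ s1, loc (shift c d b) p
      = ((∏ p ∈ d.primeFactors \ s1, (1 - 1 / (p:ℝ)))⁻¹) ^ (r - 1) := by
    rw [← Finset.prod_inv_distrib, ← Finset.prod_pow]
    refine Finset.prod_congr rfl fun p hp => ?_
    rw [mem_sdiff, Nat.mem_primeFactors] at hp
    exact loc_shift_of_dvd hr c d b hp.1.1 hp.1.2.1
  have e2 : ∏ p ∈ s1, loc (shift c d b) p
      = (∏ p ∈ s1, (p:ℝ)) ^ (r - 1) * ((∏ p ∈ s1, ((p:ℝ) - 1))⁻¹) ^ r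
        * ∏ p ∈ s1, ((p:ℝ) - nu (shift c d b) p) := by
    rw [← Finset.prod_pow, ← Finset.prod_inv_distrib, ← Finset.prod_pow, ← Finset.prod_mul_distrib,
      ← Finset.prod_mul_distrib]
    refine Finset.prod_congr rfl fun p hp => ?_
    unfold loc
    have hp0 : (0:ℝ) < p := by exact_mod_cast (h1 p hp).pos
    have hp1 : (1:ℝ) < p := by exact_mod_cast (h1 p hp).one_lt
    obtain ⟨k, rfl⟩ : ∃ k, r = k + 1 := ⟨r - 1, by omega⟩
    simp only [Nat.add_sub_cancel]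
    have e3 : (1 - 1 / (p:ℝ))⁻¹ = p * ((p:ℝ) - 1)⁻¹ := by
      have : (p:ℝ) - 1 ≠ 0 := by linarith
      field_simp
    have e4 : (1:ℝ) - (nu (shift c d b) p : ℝ) / p = (p - nu (shift c d b) p) * (p:ℝ)⁻¹ := by
      field_simp
    rw [e3, e4, mul_pow]
    have e5 : (p:ℝ) ^ (k+1) = p ^ k * p := pow_succ _ _
    rw [e5]
    have e6 : (p:ℝ)⁻¹ * p = 1 := inv_mul_cancel₀ hp0.ne'
    linear_combination ((p:ℝ) - nu (shift c d b) p) * p ^ k * (((p:ℝ) - 1)⁻¹) ^ (k+1) * e6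
  rw [e1, e2]
  ring

lemma VV_mul (s1 : Finset ℕ) (h1 : ∀ p ∈ s1, p.Prime) (d : ℕ) (hd : d ≠ 0) :
    (∏ p ∈ d.primeFactors \ s1, (1 - 1 / (p:ℝ))) * VV s1 d = (∏ p ∈ s1, (p:ℝ)) * DD1 d := by
  classical
  unfold VV DD1
  have hsplit : d.primeFactors = (d.primeFactors \ s1) ∪ (d.primeFactors ∩ s1) := by
    rw [Finset.sdiff_union_inter]
  have e1 : ∏ p ∈ d.primeFactors, (1 - 1 / (p:ℝ))
      = (∏ p ∈ d.primeFactors \ s1, (1 - 1 / (p:ℝ))) * ∏ p ∈ d.primeFactors ∩ s1, (1 - 1 / (p:ℝ)) := by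
    conv_lhs => rw [hsplit]
    rw [Finset.prod_union]
    exact Finset.disjoint_sdiff_inter _ _
  have e2 : ∏ p ∈ d.primeFactors ∩ s1, (1 - 1 / (p:ℝ))
      = ∏ p ∈ s1, (if p ∣ d then (1 - 1 / (p:ℝ)) else 1) := by
    rw [← Finset.prod_filter]
    congr 1
    ext p
    simp only [mem_inter, Nat.mem_primeFactors, mem_filter]
    constructor
    · rintro ⟨⟨_, h2, _⟩, h3⟩
      exact ⟨h3, h2⟩
    · rintro ⟨h3, h2⟩
      exact ⟨⟨h1 p h3, h2, hd⟩, h3⟩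
  rw [e1, e2]
  have e3 : (∏ p ∈ s1, (p:ℝ)) * ∏ p ∈ s1, (if p ∣ d then (1 - 1 / (p:ℝ)) else 1)
      = ∏ p ∈ s1, (if p ∣ d then (p:ℝ) - 1 else p) := by
    rw [← Finset.prod_mul_distrib]
    refine Finset.prod_congr rfl fun p hp => ?_
    have hp0 : (p:ℝ) ≠ 0 := by exact_mod_cast (h1 p hp).ne_zero
    split_ifs
    · field_simp
    · ring
  rw [← e3]
  ring

/-- Jensen lower bound for the sum of partial singular series. -/
lemma sum_WW_ge (s1 : Finset ℕ) (h1 : ∀ p ∈ s1, p.Prime) (B : Finset ℕ) (c d r : ℕ)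
    (hr : 1 ≤ r) (hd : d ≠ 0) :
    ((DD1 d)⁻¹) ^ (r - 1) * (B.card : ℝ) ^ r
      ≤ ∑ b ∈ Fintype.piFinset (fun _ : Fin r => B), WW s1 c d b := by
  rw [sum_WW_eq s1 h1 B c d r hr]
  have hJ := sum_pow_ge s1 h1 B c d r hr
  have hV := VV_mul s1 h1 d hd
  set q := ∏ p ∈ s1, (p:ℝ) with hq
  set φ := ∏ p ∈ s1, ((p:ℝ) - 1) with hφ
  set D' := ∏ p ∈ d.primeFactors \ s1, (1 - 1 / (p:ℝ)) with hD'
  set S := ∑ u ∈ range (∏ p ∈ s1, p), ((goodB s1 B c d u).card : ℝ) ^ r with hS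
  have hq0 : 0 < q := Finset.prod_pos fun p hp => by exact_mod_cast (h1 p hp).pos
  have hφ0 : 0 < φ := Finset.prod_pos fun p hp => by
    have : (1:ℝ) < p := by exact_mod_cast (h1 p hp).one_lt
    linarith
  have hD'0 : 0 < D' := Finset.prod_pos fun p hp => by
    rw [mem_sdiff] at hp
    exact one_sub_inv_pos (Nat.prime_of_mem_primeFactors hp.1)
  have hDD := DD1_pos d
  have hVV : VV s1 d = q * DD1 d / D' := by
    rw [eq_div_iff hD'0.ne', mul_comm]; exact hV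
  have hVV0 : 0 < VV s1 d := by rw [hVV]; positivity
  have hS' : (B.card * φ) ^ r / VV s1 d ^ (r-1) ≤ S := by
    rw [div_le_iff₀ (by positivity)]
    linarith [mul_comm S (VV s1 d ^ (r-1))]
  calc ((DD1 d)⁻¹) ^ (r - 1) * (B.card : ℝ) ^ r
      = q ^ (r - 1) * (φ⁻¹) ^ r * (D'⁻¹) ^ (r - 1) * ((B.card * φ) ^ r / VV s1 d ^ (r-1)) := by
        rw [hVV, mul_pow, div_pow, mul_pow, inv_pow, inv_pow, inv_pow]
        field_simp
    _ ≤ q ^ (r - 1) * (φ⁻¹) ^ r * (D'⁻¹) ^ (r - 1) * S := by gcongr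

lemma alg_e3 {ε x φ lg q D L : ℝ} (hε : ε < 1) (hε0 : 0 < ε) (hx : 0 < x) (hφ : 0 < φ)
    (hlg : 0 < lg) (hq : 0 < q) (hD : 0 < D) (hL : 0 < L) :
    ((1 - ε) * x / (φ * lg) / ((1 + ε) * (x / q) * D)) * ((1 + ε) / ((1 - ε) * L))
      = q / (φ * lg * D * L) := by
  have h1 : (1 - ε) ≠ 0 := by linarith
  have h2 : (1 + ε) ≠ 0 := by linarith
  field_simp

lemma alg_e4 {ε x φ lg q D : ℝ} (k : ℕ) (hε : ε < 1) (hε0 : 0 < ε) (hx : 0 < x) (hφ : 0 < φ)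
    (hlg : 0 < lg) (hq : 0 < q) (hD : 0 < D) :
    ((1 + ε) * (x / q) * D) * ((1 - ε) * x / (φ * lg) / ((1 + ε) * (x / q) * D)) ^ (k + 1)
      = (1 + ε)⁻¹ ^ k * (1 - ε) ^ (k + 1) * (x / lg ^ (k + 1))
      * (q ^ k * φ⁻¹ ^ (k + 1) * D⁻¹ ^ k) := by
  have h1 : (1 - ε) ≠ 0 := by linarith
  have h2 : (1 + ε) ≠ 0 := by linarith
  rw [div_pow, div_pow, mul_pow, mul_pow, mul_pow, mul_pow, div_pow]
  have e : ∀ y : ℝ, y ^ (k+1) = y ^ k * y := fun y => pow_succ y k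
  simp only [e, inv_pow]
  field_simp

lemma alg_final {A1 A2 E X W SR N0 T : ℝ} (h : N0 * T = A1 * A2 * X * W) :
    A1 * A2 * E * X * (W * SR) = N0 * (T * SR * E) := by
  linear_combination (-(SR * E)) * h

lemma alg_h5 {q DD φ lg D L Bc : ℝ} (hφ : 0 < φ) (hlg : 0 < lg) (hq : 0 < q) (hD : 0 < D)
    (hL : 0 < L) (hB : 0 < Bc) (hDD : DD ≤ 1) (hBL : L * lg ≤ Bc) :
    q * DD / D / (Bc * φ) ≤ q / (φ * lg * D * L) := by
  rw [div_div, div_le_div_iff₀ (by positivity) (by positivity)]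
  calc q * DD * (φ * lg * D * L) = q * φ * D * (DD * (L * lg)) := by ring
    _ ≤ q * φ * D * (1 * Bc) := by gcongr
    _ = q * (D * (Bc * φ)) := by ring

lemma alg_ratio {R Tk T1 SR SR1 V E : ℝ} (hR : 0 ≤ R) (hTk : 0 ≤ Tk) (hSR : 0 ≤ SR)
    (h1 : SR1 ≤ V * SR) (h2 : V ≤ T1 * E) :
    R * Tk * SR1 ≤ (Tk * T1) * SR * (R * E) := by
  calc R * Tk * SR1 ≤ R * Tk * (V * SR) := by gcongr
    _ ≤ R * Tk * ((T1 * E) * SR) := by gcongr
    _ = _ := by ring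

lemma alg_sum {N0 T1 T2 g1 g2 R : ℝ} :
    N0 * (T1 * g1 - R * (T2 * g2)) = N0 * (T1 * g1 - R * T2 * g2) := by ring

/-- Combination of the class estimates. -/
lemma lower_comb (s1 : Finset ℕ) (h1 : ∀ p ∈ s1, p.Prime) (B : Finset ℕ) (c d D0 x r : ℕ)
    (hr : 2 ≤ r) (hd : 1 ≤ d) (hD0 : d ≤ D0) {ε : ℝ} (hε0 : 0 < ε) (hε1 : ε < 1)
    (hx : 2 ≤ x)
    (hN : ∀ u, ((NN s1 (d.primeFactors \ s1) c D0 x u).card : ℝ) ≤
      (1 + ε) * (x / (∏ p ∈ s1, (p:ℝ))) * ∏ p ∈ d.primeFactors \ s1, (1 - 1 / (p:ℝ)))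
    (hT : ∀ u, ∀ b ∈ goodB s1 B c d u,
      (1 - ε) * x / ((∏ p ∈ s1, ((p:ℝ) - 1)) * Real.log x)
        ≤ (((Ioc D0 x).filter (fun n => (∀ p ∈ s1, n % p = u % p) ∧
      (n + (c + d * b)).Prime)).card : ℝ))
    {L : ℝ} (hL : 0 < L) (hBL : L * Real.log x ≤ B.card) :
    (1 + ε)⁻¹ ^ (r - 1) * (1 - ε) ^ r * (1 - (r:ℝ) ^ 2 * ((1 + ε) / ((1 - ε) * L))) *
      (x / Real.log x ^ r) * ∑ b ∈ Fintype.piFinset (fun _ : Fin r => B), WW s1 c d b
      ≤ ∑ b ∈ injTuples r B, (tcount (shift c d b) x : ℝ) := by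
  classical
  have hr1 : 1 ≤ r := by omega
  have hcmp := sum_pow_compare s1 h1 B c d r hr
  have hV := VV_mul s1 h1 d (by omega)
  have hDD := DD1_pos d
  have hDD1 := DD1_le_one d
  have hq0 : 0 < ∏ p ∈ s1, (p:ℝ) := Finset.prod_pos fun p hp => by exact_mod_cast (h1 p hp).pos
  have hφ0 : 0 < ∏ p ∈ s1, ((p:ℝ) - 1) := Finset.prod_pos fun p hp => by
    have : (1:ℝ) < p := by exact_mod_cast (h1 p hp).one_lt
    linarith
  have hD'0 : 0 < ∏ p ∈ d.primeFactors \ s1, (1 - 1 / (p:ℝ)) := Finset.prod_pos fun p hp => by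
    rw [mem_sdiff] at hp
    exact one_sub_inv_pos (Nat.prime_of_mem_primeFactors hp.1)
  have hx0 : (0:ℝ) < x := by
    have : 0 < x := by omega
    exact_mod_cast this
  have hx1 : (1:ℝ) < x := by
    have : 1 < x := by omega
    exact_mod_cast this
  have hlog : 0 < Real.log x := Real.log_pos hx1
  rw [sum_WW_eq s1 h1 B c d r hr1]
  generalize hqe : ∏ p ∈ s1, (p:ℝ) = q at *
  generalize hφe : ∏ p ∈ s1, ((p:ℝ) - 1) = φ at *
  generalize hDe : ∏ p ∈ d.primeFactors \ s1, (1 - 1 / (p:ℝ)) = D' at *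
  have hε' : 0 < 1 - ε := by linarith
  have hN0pos : 0 < (1 + ε) * (x / q) * D' := by positivity
  have hτpos : 0 < (1 - ε) * x / (φ * Real.log x) := by positivity
  have he3 := alg_e3 hε1 hε0 hx0 hφ0 hlog hq0 hD'0 hL
  have he4 := alg_e4 (r-1) hε1 hε0 hx0 hφ0 hlog hq0 hD'0
  have h10 : r - 1 + 1 = r := by omega
  rw [h10] at he4
  generalize hN0 : (1 + ε) * (x / q) * D' = N0 at *
  generalize hτ : (1 - ε) * x / (φ * Real.log x) = τ at *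
  have hB0 : (0:ℝ) < B.card := lt_of_lt_of_le (by positivity) hBL
  -- step 1
  have step1 : N0 * ((τ / N0) ^ r * (∑ u ∈ range (∏ p ∈ s1, p), ((goodB s1 B c d u).card : ℝ) ^ r)
      - (r:ℝ) ^ 2 * (τ / N0) ^ (r-1) *
        (∑ u ∈ range (∏ p ∈ s1, p), ((goodB s1 B c d u).card : ℝ) ^ (r-1)))
      ≤ ∑ b ∈ injTuples r B, (tcount (shift c d b) x : ℝ) := by
    have h2 := sum_desc_eq B c d r x
    have h3 : ∑ b ∈ injTuples r B, (tcount (shift c d b) x : ℝ)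
        = ∑ n ∈ Icc 1 x, ((XX B c d n).descFactorial r : ℝ) := by
      exact_mod_cast h2.symm
    rw [h3]
    refine le_trans ?_ (sum_classes_le s1 (d.primeFactors \ s1) h1 c D0 x
      (fun n => ((XX B c d n).descFactorial r : ℝ)) (fun _ => by positivity))
    have h4 : ∀ u ∈ range (∏ p ∈ s1, p),
        N0 * ((τ * (goodB s1 B c d u).card / N0) ^ r
      - (r:ℝ) ^ 2 * (τ * (goodB s1 B c d u).card / N0) ^ (r - 1))
      ≤ ∑ n ∈ NN s1 (d.primeFactors \ s1) c D0 x u, ((XX B c d n).descFactorial r : ℝ) :=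
      fun u _ => class_lower s1 B c d D0 x u r hr1 hd hD0 hτpos.le hN0pos (hN u) (hT u)
    refine le_trans (le_of_eq ?_) (Finset.sum_le_sum h4)
    rw [Finset.mul_sum, Finset.mul_sum, ← Finset.sum_sub_distrib, Finset.mul_sum]
    refine Finset.sum_congr rfl fun u _ => ?_
    have e1 : τ * ((goodB s1 B c d u).card : ℝ) / N0 = (τ / N0) * (goodB s1 B c d u).card := by ring
    rw [e1, mul_pow, mul_pow]
    exact alg_sum.symm
  have hSR0 : 0 ≤ ∑ u ∈ range (∏ p ∈ s1, p), ((goodB s1 B c d u).card : ℝ) ^ r :=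
    Finset.sum_nonneg fun _ _ => by positivity
  generalize hSR : ∑ u ∈ range (∏ p ∈ s1, p), ((goodB s1 B c d u).card : ℝ) ^ r = SR at *
  generalize hSR1 : ∑ u ∈ range (∏ p ∈ s1, p), ((goodB s1 B c d u).card : ℝ) ^ (r-1) = SR1 at *
  refine le_trans ?_ step1
  have hVV : VV s1 d = q * DD1 d / D' := by
    rw [eq_div_iff hD'0.ne', mul_comm]; exact hV
  have hSR1le : SR1 ≤ VV s1 d / (B.card * φ) * SR := by
    rw [div_mul_eq_mul_div, le_div_iff₀ (by positivity), mul_comm]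
    exact hcmp
  have h5 : VV s1 d / (B.card * φ) ≤ (τ / N0) * ((1 + ε) / ((1 - ε) * L)) := by
    rw [he3, hVV]
    exact alg_h5 hφ0 hlog hq0 hD'0 hL hB0 hDD1 hBL
  have hratio := alg_ratio (R := (r:ℝ)^2) (Tk := (τ / N0) ^ (r-1)) (T1 := τ / N0) (SR := SR)
    (SR1 := SR1) (V := VV s1 d / (B.card * φ)) (E := (1 + ε) / ((1 - ε) * L)) (by positivity)
    (by positivity) hSR0 hSR1le h5
  rw [← pow_succ, h10] at hratio
  rw [alg_final he4]
  apply mul_le_mul_of_nonneg_left _ hN0pos.le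
  linarith

end Pool.Agent.HL
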