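import Pool.Agent.Lib.Sieve4.Mertens

/-!
# Auxiliary lemmas for the class estimate
-/

set_option autoImplicit false

open Finset Filter Topology

namespace Pool.Agent.HL

open Pool.Agent.Lib.Sieve4

lemma totient_prod (s1 : Finset ℕ) (h1 : ∀ p ∈ s1, p.Prime) :
    ((∏ p ∈ s1, p).totient : ℝ) = ∏ p ∈ s1, ((p:ℝ) - 1) := by
  classical
  induction s1 using Finset.induction_on with
  | empty => simp
  | insert q s hq ih =>
    rw [prod_insert hq, prod_insert hq]
    have hqp := h1 q (mem_insert_self _ _)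
    have hco : Nat.Coprime q (∏ p ∈ s, p) := by
      apply Nat.Coprime.prod_right
      intro p hp
      rw [Nat.coprime_primes hqp (h1 p (mem_insert_of_mem hp))]
      rintro rfl
      exact hq hp
    rw [Nat.totient_mul hco, Nat.totient_prime hqp]
    push_cast
    rw [ih (fun p hp => h1 p (mem_insert_of_mem hp)), Nat.cast_sub hqp.one_le]
    simp

lemma eventually_rpow_le {θ : ℝ} (hθ : θ < 1) {A : ℝ} {k : ℕ} (hA : 0 < A) :
    ∀ᶠ x : ℕ in atTop, A * (x:ℝ) ^ θ * Real.log x ^ k ≤ x := by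
  -- log^k = o(x^(1-θ))
  have h1 : (fun x : ℝ => Real.log x ^ k) =o[atTop] (fun x : ℝ => x ^ (1 - θ)) := by
    have := isLittleO_log_rpow_rpow_atTop (k:ℝ) (s := 1 - θ) (by linarith)
    simpa using this
  have h2 := (h1.bound (c := 1 / A) (by positivity))
  have h3 := tendsto_natCast_atTop_atTop (R := ℝ) |>.eventually h2
  filter_upwards [h3, eventually_ge_atTop 2] with x hx hx2
  have hx0 : (0:ℝ) < x := by
    have : 0 < x := by omega
    exact_mod_cast this
  have hx1 : (1:ℝ) < x := by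
    have : 1 < x := by omega
    exact_mod_cast this
  have hlog : 0 < Real.log x := Real.log_pos hx1
  rw [Real.norm_of_nonneg (by positivity), Real.norm_of_nonneg (by positivity)] at hx
  have h5 : (x:ℝ) ^ θ * (x:ℝ) ^ (1 - θ) = x := by
    rw [← Real.rpow_add hx0]; simp
  calc A * (x:ℝ) ^ θ * Real.log x ^ k ≤ A * (x:ℝ) ^ θ * (1 / A * (x:ℝ) ^ (1 - θ)) := by gcongr
    _ = (x:ℝ) ^ θ * (x:ℝ) ^ (1 - θ) := by field_simp
    _ = x := h5

/-- `∏_{t ∈ T} (1 - 1/t) ≥ 1/(|T| + 1)` for integers `t ≥ 2`. -/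
lemma prod_one_sub_inv_ge (T : Finset ℕ) (hT : ∀ t ∈ T, 2 ≤ t) :
    1 / ((T.card : ℝ) + 1) ≤ ∏ t ∈ T, (1 - 1 / (t:ℝ)) := by
  classical
  induction T using Finset.induction_on_max with
  | empty => simp
  | insert a T' ha ih =>
    have haT : a ∉ T' := fun h => lt_irrefl _ (ha a h)
    rw [prod_insert haT, card_insert_of_notMem haT]
    have ih' := ih (fun t ht => hT t (mem_insert_of_mem ht))
    have hcard : T'.card + 2 ≤ a := by
      have hsub : T' ⊆ Ico 2 a := by
        intro t ht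
        rw [mem_Ico]
        exact ⟨hT t (mem_insert_of_mem ht), ha t ht⟩
      have h2 := Finset.card_le_card hsub
      rw [Nat.card_Ico] at h2
      have := hT a (mem_insert_self _ _)
      omega
    have hcard' : (T'.card : ℝ) + 2 ≤ a := by exact_mod_cast hcard
    have h0 : (0:ℝ) ≤ T'.card := by positivity
    have h3 : ((T'.card : ℝ) + 1) / (T'.card + 2) ≤ 1 - 1 / (a:ℝ) := by
      have h4 : 1 / (a:ℝ) ≤ 1 / ((T'.card:ℝ) + 2) := one_div_le_one_div_of_le (by linarith) hcard'
      have h5 : ((T'.card : ℝ) + 1) / (T'.card + 2) = 1 - 1 / ((T'.card:ℝ) + 2) := by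
        field_simp
        ring
      linarith
    calc 1 / (((T'.card + 1 : ℕ) : ℝ) + 1)
        = ((T'.card : ℝ) + 1) / (T'.card + 2) * (1 / ((T'.card : ℝ) + 1)) := by
          push_cast
          field_simp
          ring
      _ ≤ (1 - 1 / (a:ℝ)) * ∏ t ∈ T', (1 - 1 / (t:ℝ)) := by
          apply mul_le_mul h3 ih' (by positivity)
          exact le_trans (by positivity) h3

lemma prod_sdiff_le (s1 : Finset ℕ) (d : ℕ) (hd : d ≠ 0) :
    ∏ p ∈ d.primeFactors \ s1, p ≤ d := by
  have h1 : ∏ p ∈ d.primeFactors \ s1, p ≤ ∏ p ∈ d.primeFactors, p := by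
    apply Finset.prod_le_prod_of_subset_of_one_le' Finset.sdiff_subset
    intro p hp _
    exact (Nat.prime_of_mem_primeFactors hp).one_le
  exact h1.trans (Nat.le_of_dvd (Nat.pos_of_ne_zero hd) (Nat.prod_primeFactors_dvd d))

lemma two_pow_card_le (s1 : Finset ℕ) (d : ℕ) (hd : d ≠ 0) :
    2 ^ (d.primeFactors \ s1).card ≤ d := by
  refine le_trans ?_ (prod_sdiff_le s1 d hd)
  apply Finset.pow_card_le_prod
  intro p hp
  exact (Nat.prime_of_mem_primeFactors (Finset.mem_sdiff.mp hp).1).two_le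

end Pool.Agent.HL
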