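import Pool.Agent.Lib.HL.LowerMain
import Pool.Agent.Lib.HL.PntAux
import Pool.Agent.Lib.PntAP.PntAP

/-!
# Supplying the hypotheses of the class estimate from the prime number theorem
-/

set_option autoImplicit false

open Finset Filter Topology

namespace Pool.Agent.HL

open Pool.Agent.Lib.Sieve4

/-- Uniformly over the unit classes modulo `q`. -/
lemma eventually_piAP_ge (q : ℕ) [NeZero q] {ε : ℝ} (hε : 0 < ε) :
    ∀ᶠ x : ℕ in atTop, ∀ a : ZMod q, IsUnit a →
      (1 - ε) * x / (q.totient * Real.log x) ≤ (PntAP.piAP a (x:ℝ) : ℝ) := by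
  rw [eventually_all]
  intro a
  by_cases ha : IsUnit a
  · have h1 := (PntAP.piAP_tendsto ha).comp tendsto_natCast_atTop_atTop
    have hφ : (0:ℝ) < q.totient := by
      exact_mod_cast Nat.totient_pos.mpr (Nat.pos_of_ne_zero (NeZero.ne q))
    have h2 : (1 - ε) * ((q.totient : ℝ))⁻¹ < ((q.totient : ℝ))⁻¹ := by
      have : (0:ℝ) < ((q.totient : ℝ))⁻¹ := by positivity
      nlinarith
    filter_upwards [h1.eventually_const_lt h2, eventually_ge_atTop 2] with x hx hx2 _
    simp only [Function.comp] at hx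
    have hx0 : (0:ℝ) < x := by
      have : 0 < x := by omega
      exact_mod_cast this
    have hx1 : (1:ℝ) < x := by
      have : 1 < x := by omega
      exact_mod_cast this
    have hlog : 0 < Real.log x := Real.log_pos hx1
    rw [lt_div_iff₀ hx0] at hx
    rw [div_le_iff₀ (by positivity)]
    have h3 : (1 - ε) * x = ((1 - ε) * ((q.totient : ℝ))⁻¹ * x) * q.totient := by
      field_simp
    rw [h3]
    calc ((1 - ε) * ((q.totient : ℝ))⁻¹ * x) * q.totient
        ≤ (PntAP.piAP a (x:ℝ) * Real.log x) * q.totient := by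
          apply mul_le_mul_of_nonneg_right hx.le hφ.le
      _ = _ := by ring
  · filter_upwards with x h
    exact absurd h ha

/-- Counting primes in a shifted class. -/
lemma card_class_ge (s1 : Finset ℕ) (D0 s x u : ℕ) :
    (PntAP.piAP ((u + s : ℕ) : ZMod (∏ p ∈ s1, p)) (x:ℝ) : ℝ) - (D0 + s) ≤
      (((Ioc D0 x).filter (fun n => (∀ p ∈ s1, n % p = u % p) ∧ (n + s).Prime)).card : ℝ) := by
  classical
  set P := PntAP.primesAP ((u + s : ℕ) : ZMod (∏ p ∈ s1, p)) (x:ℝ) with hP
  set T := (Ioc D0 x).filter (fun n => (∀ p ∈ s1, n % p = u % p) ∧ (n + s).Prime) with hT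
  have hsub : P ⊆ (Icc 1 (D0 + s)) ∪ T.image (fun n => n + s) := by
    intro m hm
    rw [PntAP.mem_primesAP] at hm
    rw [mem_union, mem_Icc, mem_image]
    rcases le_or_gt m (D0 + s) with h | h
    · left
      exact ⟨hm.1.1, h⟩
    · right
      refine ⟨m - s, ?_, by omega⟩
      rw [hT, mem_filter, mem_Ioc]
      have hmx : m ≤ x := by simpa using hm.1.2
      refine ⟨⟨by omega, by omega⟩, ?_, ?_⟩
      · intro p hp
        have h3 := hm.2.2
        rw [ZMod.natCast_eq_natCast_iff] at h3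
        have h4 : m ≡ u + s [MOD p] := h3.of_dvd (Finset.dvd_prod_of_mem _ hp)
        have h5 : (m - s) + s ≡ u + s [MOD p] := by
          rw [Nat.sub_add_cancel (by omega)]; exact h4
        exact Nat.ModEq.add_right_cancel' s h5
      · rw [Nat.sub_add_cancel (by omega)]
        exact hm.2.1
  have hcard := Finset.card_le_card hsub
  have h2 := (Finset.card_union_le (Icc 1 (D0 + s)) (T.image (fun n => n + s)))
  have h3 : (T.image (fun n => n + s)).card ≤ T.card := Finset.card_image_le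
  have h4 : (Icc 1 (D0 + s)).card = D0 + s := by simp
  have h5 : P.card ≤ D0 + s + T.card := by omega
  have h6 : (P.card : ℝ) ≤ D0 + s + T.card := by exact_mod_cast h5
  unfold PntAP.piAP
  rw [← hP]
  linarith

/-- The class size bound. -/
lemma card_NN_le (s1 : Finset ℕ) (h1 : ∀ p ∈ s1, p.Prime) (c d D0 x u : ℕ) (hd : d ≠ 0) :
    ((NN s1 (d.primeFactors \ s1) c D0 x u).card : ℝ) ≤
      ((x:ℝ) + 1) / (∏ p ∈ s1, (p:ℝ)) * (∏ p ∈ d.primeFactors \ s1, (1 - 1 / (p:ℝ)))
        + (∏ p ∈ s1, (p:ℝ)) * d := by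
  classical
  have h2 : ∀ p ∈ d.primeFactors \ s1, p.Prime := fun p hp =>
    Nat.prime_of_mem_primeFactors (Finset.mem_sdiff.mp hp).1
  have h := classCount_le s1 (d.primeFactors \ s1) h1 h2 Finset.disjoint_sdiff u c (x+1)
  have hsub : NN s1 (d.primeFactors \ s1) c D0 x u ⊆ ((range (x+1)).filter (fun n =>
      (∀ p ∈ s1, n % p = u % p) ∧ (∀ p ∈ d.primeFactors \ s1, ¬ p ∣ n + c))) := by
    unfold NN
    intro n hn
    rw [mem_filter, mem_Ioc] at hn
    rw [mem_filter, mem_range]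
    exact ⟨by omega, hn.2⟩
  have h3 : ((NN s1 (d.primeFactors \ s1) c D0 x u).card : ℝ) ≤ (((range (x+1)).filter (fun n =>
      (∀ p ∈ s1, n % p = u % p) ∧ (∀ p ∈ d.primeFactors \ s1, ¬ p ∣ n + c))).card : ℝ) := by
    exact_mod_cast Finset.card_le_card hsub
  refine h3.trans (h.trans ?_)
  rw [Finset.prod_union Finset.disjoint_sdiff]
  have h4 : (∏ p ∈ d.primeFactors \ s1, (p:ℝ)) ≤ d := by
    have h6 : ((∏ p ∈ d.primeFactors \ s1, p : ℕ) : ℝ) ≤ (d:ℝ) :=
      Nat.cast_le.mpr (prod_sdiff_le s1 d hd)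
    rwa [Nat.cast_prod] at h6
  have h5 : 0 ≤ ∏ p ∈ s1, (p:ℝ) := Finset.prod_nonneg fun _ _ => by positivity
  push_cast
  gcongr

/-- The lower bound for the sum of the tuple counts, with the prime number theorem inserted. -/
theorem lower_asymp (r : ℕ) (hr : 2 ≤ r) (s1 : Finset ℕ) (h1 : ∀ p ∈ s1, p.Prime) {η : ℝ}
    (hη : 0 < η) :
    ∃ L ξ : ℝ, 0 < L ∧ 0 < ξ ∧ ∀ᶠ x : ℕ in atTop, ∀ c d H : ℕ, ∀ B : Finset ℕ, 1 ≤ d →
      B ⊆ Icc 1 H → ((c + d * H : ℕ) : ℝ) * Real.log x ≤ ξ * x → L * Real.log x ≤ B.card →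
      (1 - η) * (x / Real.log x ^ r) * ∑ b ∈ Fintype.piFinset (fun _ : Fin r => B), WW s1 c d b
      ≤ ∑ b ∈ injTuples r B, (tcount (shift c d b) x : ℝ) := by
  -- choose ε and L
  have hcont : Tendsto (fun ε : ℝ => (1 + ε)⁻¹ ^ (r - 1) * (1 - ε) ^ r *
      (1 - (r:ℝ) ^ 2 * ((1 + ε) / ((1 - ε) * ε⁻¹)))) (𝓝[>] 0) (𝓝 1) := by
    have h2 : Tendsto (fun ε : ℝ => (1 + ε)⁻¹ ^ (r - 1) * (1 - ε) ^ r *
      (1 - (r:ℝ) ^ 2 * ((1 + ε) / (1 - ε) * ε))) (𝓝[>] 0) (𝓝 1) := by
      have h3 : ContinuousAt (fun ε : ℝ => (1 + ε)⁻¹ ^ (r - 1) * (1 - ε) ^ r *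
        (1 - (r:ℝ) ^ 2 * ((1 + ε) / (1 - ε) * ε))) 0 := by
        have e1 : (1:ℝ) + 0 ≠ 0 := by norm_num
        have e2 : (1:ℝ) - 0 ≠ 0 := by norm_num
        fun_prop (disch := assumption)
      have h4 := h3.tendsto
      simp only [add_zero, inv_one, one_pow, sub_zero, mul_zero, mul_one] at h4
      exact h4.mono_left nhdsWithin_le_nhds
    refine h2.congr' ?_
    filter_upwards with ε
    rw [← div_div, div_inv_eq_mul]
  obtain ⟨ε, ⟨hε1, hε2⟩⟩ := ((hcont.eventually_const_lt (show 1 - η < 1 by linarith)).and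
    (Ioo_mem_nhdsGT (show (0:ℝ) < 1 by norm_num))).exists
  obtain ⟨hε0, hε1'⟩ := hε2
  set q := ∏ p ∈ s1, p with hq
  have hqpos : 0 < q := Finset.prod_pos fun p hp => (h1 p hp).pos
  have : NeZero q := ⟨hqpos.ne'⟩
  have hqR : (q:ℝ) = ∏ p ∈ s1, (p:ℝ) := by rw [hq]; push_cast; rfl
  have hq1 : (1:ℝ) ≤ q := by exact_mod_cast hqpos
  have hφ := totient_prod s1 h1
  rw [← hq] at hφ
  have hφ0 : (0:ℝ) < q.totient := by exact_mod_cast Nat.totient_pos.mpr hqpos
  have hφ1 : (1:ℝ) ≤ q.totient := by exact_mod_cast Nat.totient_pos.mpr hqpos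
  have hpnt := eventually_piAP_ge q (ε := ε / 2) (by positivity)
  set A : ℝ := 2 * q.totient * (2 / ε) + (1 + q) * q * 4 * ε⁻¹ with hA
  have hA1 : 2 * q.totient * (2 / ε) ≤ A := by
    rw [hA]
    have : 0 ≤ (1 + (q:ℝ)) * q * 4 * ε⁻¹ := by positivity
    linarith
  have hA2 : (1 + q) * q * 4 * ε⁻¹ ≤ A := by
    rw [hA]
    have : 0 ≤ 2 * (q.totient:ℝ) * (2 / ε) := by positivity
    linarith
  have hA0 : 0 < A := by positivity
  refine ⟨ε⁻¹, A⁻¹, by positivity, by positivity, ?_⟩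
  filter_upwards [hpnt, eventually_ge_atTop 3] with x hx1 hx4 c d H B hd hB hcd hL
  have hx0 : (0:ℝ) < x := by
    have : 0 < x := by omega
    exact_mod_cast this
  have hx1' : (1:ℝ) < x := by
    have : 1 < x := by omega
    exact_mod_cast this
  have hlog : 0 < Real.log x := Real.log_pos hx1'
  have hlog1 : 1 ≤ Real.log x := by
    rw [Real.le_log_iff_exp_le hx0]
    have h3 : (3:ℝ) ≤ x := by exact_mod_cast hx4
    linarith [Real.exp_one_lt_d9]
  -- B nonempty so H ≥ 1
  have hBpos : (0:ℝ) < B.card := lt_of_lt_of_le (by positivity) hL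
  have hBne : B.Nonempty := by
    rw [← Finset.card_pos]; exact_mod_cast hBpos
  have hH1 : 1 ≤ H := by
    obtain ⟨b, hb⟩ := hBne
    have := mem_Icc.mp (hB hb)
    omega
  set Q : ℝ := ((c + d * H : ℕ) : ℝ) with hQ
  have hdle : (d:ℝ) ≤ Q := by
    have : d ≤ c + d * H := le_trans (Nat.le_mul_of_pos_right d hH1) (Nat.le_add_left _ _)
    rw [hQ]
    exact_mod_cast this
  have hd1 : (1:ℝ) ≤ d := by exact_mod_cast hd
  have hQ0 : 0 < Q := by linarith
  have hAQ : A * Q * Real.log x ≤ x := by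
    have h2 := mul_le_mul_of_nonneg_left hcd hA0.le
    calc A * Q * Real.log x = A * (Q * Real.log x) := by ring
      _ ≤ A * (A⁻¹ * x) := h2
      _ = x := by field_simp
  have hQx : Q ≤ x := by
    have hAge : 1 ≤ A := by
      refine le_trans ?_ hA1
      have h2 : 1 ≤ 2 / ε := by rw [le_div_iff₀ hε0]; linarith
      nlinarith
    calc Q = 1 * Q * 1 := by ring
      _ ≤ A * Q * Real.log x := by gcongr
      _ ≤ x := hAQ
  have hx2 : 2 * q.totient * (2 / ε) * Q * Real.log x ≤ x := by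
    refine le_trans ?_ hAQ
    gcongr
  have hx3 : (1 + q) * q * 4 * ε⁻¹ * Q * Real.log x ≤ x := by
    refine le_trans ?_ hAQ
    gcongr
  have hN : ∀ u, ((NN s1 (d.primeFactors \ s1) c d x u).card : ℝ) ≤
      (1 + ε) * (x / (∏ p ∈ s1, (p:ℝ))) * ∏ p ∈ d.primeFactors \ s1, (1 - 1 / (p:ℝ)) := by
    intro u
    refine (card_NN_le s1 h1 c d d x u (by omega)).trans ?_
    rw [← hqR]
    set D' := ∏ p ∈ d.primeFactors \ s1, (1 - 1 / (p:ℝ)) with hD'
    have hcard1 : 1 / (((d.primeFactors \ s1).card : ℝ) + 1) ≤ D' :=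
      prod_one_sub_inv_ge _ fun t ht => (Nat.prime_of_mem_primeFactors (Finset.mem_sdiff.mp ht).1).two_le
    have hcard2 : ((d.primeFactors \ s1).card : ℝ) * Real.log 2 ≤ Real.log x := by
      have h2 := two_pow_card_le s1 d (by omega)
      have h3 : (2:ℝ) ^ (d.primeFactors \ s1).card ≤ x := by
        have : (2:ℝ) ^ (d.primeFactors \ s1).card ≤ d := by exact_mod_cast h2
        linarith
      rw [← Real.log_pow]
      exact Real.log_le_log (by positivity) h3
    have hl2 : (1:ℝ)/2 < Real.log 2 := by linarith [Real.log_two_gt_d9]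
    have hk0 : (0:ℝ) ≤ ((d.primeFactors \ s1).card : ℝ) := by positivity
    have hcard3 : ((d.primeFactors \ s1).card : ℝ) + 1 ≤ 4 * Real.log x := by nlinarith
    have hD'ge : 1 / (4 * Real.log x) ≤ D' :=
      le_trans (one_div_le_one_div_of_le (by positivity) hcard3) hcard1
    have hD'le : D' ≤ 1 := Finset.prod_le_one
      (fun p hp => (one_sub_inv_pos (Nat.prime_of_mem_primeFactors (Finset.mem_sdiff.mp hp).1)).le)
      (fun _ _ => one_sub_inv_le_one)
    have hD'0 : 0 < D' := lt_of_lt_of_le (by positivity) hD'ge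
    -- D'/q + q d ≤ ε x / q * D'
    have h4 : (1 + q) * q * Q * (4 * Real.log x) ≤ ε * x := by
      have := mul_le_mul_of_nonneg_left hx3 hε0.le
      calc (1 + q) * q * Q * (4 * Real.log x)
          = ε * ((1 + q) * q * 4 * ε⁻¹ * Q * Real.log x) := by
            field_simp
        _ ≤ ε * x := this
    have h5 : 1 / (q:ℝ) * D' + q * d ≤ ε * (x / q) * D' := by
      have h6 : q * (d:ℝ) ≤ q * Q := by gcongr
      have h7 : 1 / (q:ℝ) * D' ≤ 1 * Q := by
        apply mul_le_mul _ (by linarith) hD'0.le (by norm_num)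
        rw [div_le_one (by linarith)]; exact hq1
      have h8 : 1 / (q:ℝ) * D' + q * d ≤ (1 + q) * Q := by
        linarith
      refine h8.trans ?_
      have h9 : (1 + q) * Q * q ≤ ε * x * D' := by
        calc (1 + q) * Q * q = ((1 + q) * q * Q * (4 * Real.log x)) *
              (1 / (4 * Real.log x)) := by field_simp
          _ ≤ (ε * x) * D' := by
              apply mul_le_mul h4 hD'ge (by positivity) (by positivity)
      have h10 : ε * (x / q) * D' = (ε * x * D') / q := by ring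
      rw [h10, le_div_iff₀ (by linarith)]
      exact h9
    calc ((x:ℝ) + 1) / q * D' + q * d = x / q * D' + (1 / (q:ℝ) * D' + q * d) := by ring
      _ ≤ x / q * D' + ε * (x / q) * D' := by linarith
      _ = _ := by ring
  have hT : ∀ u, ∀ b ∈ goodB s1 B c d u,
      (1 - ε) * x / ((∏ p ∈ s1, ((p:ℝ) - 1)) * Real.log x)
        ≤ (((Ioc d x).filter (fun n => (∀ p ∈ s1, n % p = u % p) ∧
      (n + (c + d * b)).Prime)).card : ℝ) := by
    intro u b hb
    have hb2 := mem_filter.mp hb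
    have hbH := mem_Icc.mp (hB hb2.1)
    refine le_trans ?_ (card_class_ge s1 d (c + d * b) x u)
    have hunit : IsUnit (((u + (c + d * b) : ℕ) : ZMod q)) := by
      rw [ZMod.isUnit_iff_coprime]
      apply Nat.Coprime.prod_right
      intro p hp
      rw [Nat.coprime_comm, Nat.Prime.coprime_iff_not_dvd (h1 p hp)]
      exact hb2.2 p hp
    have h2 := hx1 _ hunit
    rw [← hq]
    have hs : ((c + d * b : ℕ) : ℝ) ≤ Q := by
      have : c + d * b ≤ c + d * H := by
        have := Nat.mul_le_mul_left d hbH.2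
        omega
      rw [hQ]
      exact_mod_cast this
    rw [← hφ]
    have h3 : (d:ℝ) + ((c + d * b : ℕ) : ℝ) ≤ (ε / 2) * x / (q.totient * Real.log x) := by
      rw [le_div_iff₀ (by positivity)]
      have h4 := mul_le_mul_of_nonneg_left hx2 (show 0 ≤ ε / 2 by positivity)
      calc ((d:ℝ) + ((c + d * b : ℕ) : ℝ)) * (q.totient * Real.log x)
          ≤ (Q + Q) * (q.totient * Real.log x) := by gcongr
        _ = ε / 2 * (2 * q.totient * (2 / ε) * Q * Real.log x) := by
            field_simp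
            ring
        _ ≤ _ := h4
    have h5 : (1 - ε) * x / (q.totient * Real.log x) = (1 - ε / 2) * x / (q.totient * Real.log x)
        - (ε / 2) * x / (q.totient * Real.log x) := by ring
    rw [h5]
    push_cast at h3 h2 ⊢
    linarith
  have hmain := lower_comb s1 h1 B c d d x r hr hd le_rfl hε0 hε1' (by omega) hN hT
    (L := ε⁻¹) (by positivity) hL
  refine le_trans ?_ hmain
  have hW : 0 ≤ ∑ b ∈ Fintype.piFinset (fun _ : Fin r => B), WW s1 c d b := by
    refine le_trans ?_ (sum_WW_ge s1 h1 B c d r (by omega) (by omega))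
    have := DD1_pos d
    positivity
  have hY : 0 ≤ (x:ℝ) / Real.log x ^ r := by positivity
  apply mul_le_mul_of_nonneg_right _ hW
  exact mul_le_mul_of_nonneg_right hε1.le hY

end Pool.Agent.HL
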