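import Pool.Agent.Lib.HL.MainDefs
import Pool.Agent.Lib.HL.PntShift

/-!
# A positive proportion of tuples satisfies the Hardy-Littlewood lower bound
-/

set_option autoImplicit false

open Finset Filter Topology

namespace Pool.Agent.HL

open Pool.Agent.Lib.Sieve4

set_option maxHeartbeats 4000000 in
/-- A positive proportion of the injective `r`-tuples from a dense subset of an interval of length
`≥ C log x` satisfies the Hardy-Littlewood lower bound with any constant below one. -/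
theorem hl_positive_proportion (r : ℕ) (hr : 2 ≤ r) {ρ : ℝ} (hρ0 : 0 < ρ) (hρ : ρ < 1) {κ : ℝ}
    (hκ : 0 < κ) :
    ∃ C δ ξ : ℝ, 0 < C ∧ 0 < δ ∧ 0 < ξ ∧ ∀ᶠ x : ℕ in atTop, ∀ c d H : ℕ, ∀ B : Finset ℕ, 1 ≤ d →
      B ⊆ Icc 1 H → C * Real.log x ≤ H → ((c + d * H : ℕ) : ℝ) * Real.log x ≤ ξ * x →
      κ * H ≤ B.card →
      ∃ G ⊆ injTuples r B, δ * (H:ℝ) ^ r ≤ G.card ∧ ∀ b ∈ G, Adm (shift c d b) ∧
        ρ * SS (shift c d b) * (x / Real.log x ^ r) ≤ tcount (shift c d b) x := by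
  classical
  have hr1 : 1 ≤ r := by omega
  obtain ⟨K, hK, hKup⟩ := tuple_upper r hr1
  set γ : ℝ := (1 - ρ) / 2 with hγ
  have hγ0 : 0 < γ := by rw [hγ]; linarith
  set E : ℝ := γ * κ ^ r with hE
  have hE0 : 0 < E := by positivity
  set M1 : ℝ := Real.exp (2 ^ (EE r) / (1:ℕ)) with hM1
  have hM10 : 0 < M1 := Real.exp_pos _
  set t : ℝ := E / (4 * K * M1) with ht
  have ht0 : 0 < t := by positivity
  set s : ℝ := E / (4 * M1) with hs
  have hs0 : 0 < s := by positivity
  set η : ℝ := E * s / 4 with hη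
  have hη0 : 0 < η := by positivity
  set δ : ℝ := E * t / (4 * K) with hδ
  have hδ0 : 0 < δ := by positivity
  -- choose z
  obtain ⟨z, hz1, hz2⟩ : ∃ z : ℕ, 1 ≤ z ∧ Real.exp (2 ^ (EE r) / (z:ℝ)) - 1 ≤ η / 2 := by
    have h1 : Tendsto (fun z : ℕ => Real.exp (2 ^ (EE r) / (z:ℝ)) - 1) atTop (𝓝 0) := by
      have h2 : Tendsto (fun z : ℕ => (2:ℝ) ^ (EE r) / (z:ℝ)) atTop (𝓝 0) :=
        tendsto_const_div_atTop_nhds_zero_nat _
      have h3 := (Real.continuous_exp.tendsto 0).comp h2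
      simp only [Real.exp_zero] at h3
      have h4 := h3.sub_const 1
      simpa [Function.comp_def] using h4
    obtain ⟨z, hz⟩ := ((h1.eventually_le_const (show (0:ℝ) < η / 2 by positivity)).and
      (eventually_ge_atTop 1)).exists
    exact ⟨z, hz.2, hz.1⟩
  have hs1 : ∀ p ∈ Nat.primesLE z, p.Prime := fun p hp => (Nat.mem_primesLE.1 hp).2
  obtain ⟨L, ξ, hL, hξ, hlow⟩ := lower_asymp r hr (Nat.primesLE z) hs1 hγ0
  set C : ℝ := max (L / κ) (2 * (r:ℝ) ^ 2 / η) with hC
  have hC0 : 0 < C := lt_of_lt_of_le (by positivity) (le_max_left _ _)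
  refine ⟨C, δ, ξ, hC0, hδ0, hξ, ?_⟩
  have hlogx := eventually_rpow_le (θ := 0) (by norm_num) (A := 8 * r / E) (k := r) (by positivity)
  filter_upwards [hlow, hlogx, eventually_ge_atTop 3] with x hx1 hx2 hx3 c d H B hd hB hCH hcd hκH
  have hx0 : (0:ℝ) < x := by
    have : 0 < x := by omega
    exact_mod_cast this
  have hx1' : (1:ℝ) < x := by
    have : 1 < x := by omega
    exact_mod_cast this
  have hlog : 0 < Real.log x := Real.log_pos hx1'
  have hlog1 : 1 ≤ Real.log x := by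
    rw [Real.le_log_iff_exp_le hx0]
    have h3 : (3:ℝ) ≤ x := by exact_mod_cast hx3
    linarith [Real.exp_one_lt_d9]
  have hd0 : d ≠ 0 := by omega
  have hHpos : (0:ℝ) < H := lt_of_lt_of_le (by positivity) hCH
  have hCleH : C ≤ H := le_trans (by nlinarith) hCH
  have hBL : L * Real.log x ≤ B.card := by
    refine le_trans ?_ hκH
    have h2 : L / κ ≤ C := le_max_left _ _
    have h3 : L / κ * Real.log x ≤ H := le_trans (by gcongr) hCH
    calc L * Real.log x = κ * (L / κ * Real.log x) := by field_simp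
      _ ≤ κ * H := by gcongr
  have hHr2 : (r:ℝ) ^ 2 * (H:ℝ) ^ (r - 1) ≤ η / 2 * (H:ℝ) ^ r := by
    have h2 : 2 * (r:ℝ) ^ 2 / η ≤ H := le_trans (le_max_right _ _) hCleH
    rw [div_le_iff₀ hη0] at h2
    have h3 : (H:ℝ) ^ r = (H:ℝ) ^ (r-1) * H := by rw [← pow_succ]; congr 1; omega
    rw [h3]
    have h4 : 0 ≤ (H:ℝ) ^ (r-1) := by positivity
    nlinarith
  have hlower := hx1 c d H B hd hB hcd hBL
  set Y : ℝ := x / Real.log x ^ r with hY
  have hY0 : 0 < Y := by positivity
  set D : ℝ := ((DD1 d)⁻¹) ^ (r - 1) with hD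
  have hD1 : 1 ≤ D := one_le_pow₀ ((one_le_inv₀ (DD1_pos d)).mpr (DD1_le_one d))
  have hD0 : 0 < D := by linarith
  set T := injTuples r B with hT
  have hTsub : T ⊆ injTuples r (Icc 1 H) := injTuples_mono hB
  set G := T.filter (fun b => Adm (shift c d b) ∧
    ρ * SS (shift c d b) * Y ≤ tcount (shift c d b) x) with hG
  refine ⟨G, filter_subset _ _, ?_, fun b hb => (mem_filter.mp hb).2⟩
  by_contra hcon
  push Not at hcon
  -- bounds for the singular series
  have hinj : ∀ b ∈ T, Function.Injective (shift c d b) := fun b hb =>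
    shift_injective c d hd0 b (mem_injTuples.mp hb).2
  have hSS0 : ∀ b ∈ T, 0 ≤ SS (shift c d b) := fun b hb =>
    SS_nonneg _ (hasProd_SS _ (hinj b hb))
  have hSSW : ∀ b ∈ T, SS (shift c d b) ≤ WW (Nat.primesLE z) c d b * PP b z H := fun b hb =>
    SS_le hr1 c d H hd0 b (hTsub hb) z (hasProd_SS _ (hinj b hb))
  have hSSD : ∀ b ∈ T, SS (shift c d b) ≤ D * PP b 1 H := fun b hb =>
    SS_le' hr1 c d H hd0 b (hTsub hb) (hasProd_SS _ (hinj b hb))
  have hWWD : ∀ b ∈ T, WW (Nat.primesLE z) c d b ≤ D * PP b 1 H := fun b hb =>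
    WW_le hr1 _ hs1 c d H hd0 b (hTsub hb)
  have hWW0 : ∀ b : Fin r → ℕ, 0 ≤ WW (Nat.primesLE z) c d b := fun b => WW_nonneg _ hs1 c d b
  -- upper bounds for the counts
  have hup1 : ∀ b ∈ G, (tcount (shift c d b) x : ℝ) ≤ K * (D * PP b 1 H) * Y := by
    intro b hb
    have hb' := mem_filter.mp hb
    have h2 := hKup (shift c d b) hb'.2.1 (SS (shift c d b)) (hasProd_SS _ (hinj b hb'.1)) x (by omega)
    have h3 : K * SS (shift c d b) * x / Real.log x ^ r = K * SS (shift c d b) * Y := by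
      rw [hY]; ring
    rw [h3] at h2
    refine le_trans h2 ?_
    have := hSSD b hb'.1
    gcongr
  have hup2 : ∀ b ∈ T \ G, (tcount (shift c d b) x : ℝ)
      ≤ ρ * (WW (Nat.primesLE z) c d b * PP b z H) * Y + r := by
    intro b hb
    rw [Finset.mem_sdiff] at hb
    have hS0 := hSS0 b hb.1
    have hSW := hSSW b hb.1
    have h5 : ρ * SS (shift c d b) * Y ≤ ρ * (WW (Nat.primesLE z) c d b * PP b z H) * Y := by
      gcongr
    have h6 : 0 ≤ ρ * SS (shift c d b) * Y := by positivity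
    have hr0 : (0:ℝ) ≤ r := by positivity
    by_cases hadm : Adm (shift c d b)
    · have h2 : ¬ (ρ * SS (shift c d b) * Y ≤ tcount (shift c d b) x) := by
        intro h3
        exact hb.2 (mem_filter.mpr ⟨hb.1, hadm, h3⟩)
      push Not at h2
      linarith
    · unfold Adm at hadm
      push Not at hadm
      obtain ⟨p, hp, hpnu⟩ := hadm
      have h3 : (tcount (shift c d b) x : ℝ) ≤ r := by
        exact_mod_cast tcount_le_of_inadm (shift c d b) hp hpnu x
      linarith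
  -- the sums
  have hM1' : ∑ b ∈ injTuples r (Icc 1 H), PP b 1 H ^ 2 ≤ M1 * (H:ℝ) ^ r := by
    have := sum_PP_sq_le hr (z := 1) le_rfl H
    exact this
  have hηsum : ∑ b ∈ T, (PP b z H - 1) ^ 2 ≤ η * (H:ℝ) ^ r := by
    have h2 := sum_PP_sub_one_sq_le hr hz1 H hB
    have h3 : (Real.exp (2 ^ (EE r) / (z:ℝ)) - 1) * (H:ℝ) ^ r ≤ η / 2 * (H:ℝ) ^ r := by gcongr
    linarith
  set HR : ℝ := (H:ℝ) ^ r with hHR
  have hHR0 : 0 < HR := by positivity
  have hsumG : ∑ b ∈ G, PP b 1 H ≤ (t * M1 / 2 + δ / (2 * t)) * HR := by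
    have h2 : ∀ b ∈ G, PP b 1 H ≤ t / 2 * PP b 1 H ^ 2 + 1 / (2 * t) := by
      intro b _
      have h3 : t / 2 * PP b 1 H ^ 2 + 1 / (2 * t) - PP b 1 H
          = (t * PP b 1 H - 1) ^ 2 / (2 * t) := by
        field_simp
        ring
      have h4 : 0 ≤ (t * PP b 1 H - 1) ^ 2 / (2 * t) := by positivity
      linarith
    have h5 := Finset.sum_le_sum h2
    rw [Finset.sum_add_distrib, ← Finset.mul_sum, Finset.sum_const, nsmul_eq_mul] at h5
    have h6 : ∑ b ∈ G, PP b 1 H ^ 2 ≤ M1 * HR := by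
      refine le_trans ?_ hM1'
      exact Finset.sum_le_sum_of_subset_of_nonneg ((filter_subset _ _).trans hTsub)
        fun _ _ _ => by positivity
    calc ∑ b ∈ G, PP b 1 H ≤ t / 2 * (∑ b ∈ G, PP b 1 H ^ 2) + G.card * (1 / (2 * t)) := h5
      _ ≤ t / 2 * (M1 * HR) + (δ * HR) * (1 / (2 * t)) := by gcongr
      _ = _ := by ring
  have hsumT : ∑ b ∈ T, PP b 1 H * (PP b z H - 1) ≤ (s * M1 / 2 + η / (2 * s)) * HR := by
    have h2 : ∀ b ∈ T, PP b 1 H * (PP b z H - 1)
        ≤ s / 2 * PP b 1 H ^ 2 + 1 / (2 * s) * (PP b z H - 1) ^ 2 := by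
      intro b _
      have h3 : s / 2 * PP b 1 H ^ 2 + 1 / (2 * s) * (PP b z H - 1) ^ 2 - PP b 1 H * (PP b z H - 1)
          = (s * PP b 1 H - (PP b z H - 1)) ^ 2 / (2 * s) := by
        field_simp
        ring
      have h4 : 0 ≤ (s * PP b 1 H - (PP b z H - 1)) ^ 2 / (2 * s) := by positivity
      linarith
    have h5 := Finset.sum_le_sum h2
    rw [Finset.sum_add_distrib, ← Finset.mul_sum, ← Finset.mul_sum] at h5
    have h6 : ∑ b ∈ T, PP b 1 H ^ 2 ≤ M1 * HR := by
      refine le_trans ?_ hM1'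
      exact Finset.sum_le_sum_of_subset_of_nonneg hTsub fun _ _ _ => by positivity
    calc ∑ b ∈ T, PP b 1 H * (PP b z H - 1)
        ≤ s / 2 * (∑ b ∈ T, PP b 1 H ^ 2) + 1 / (2 * s) * ∑ b ∈ T, (PP b z H - 1) ^ 2 := h5
      _ ≤ s / 2 * (M1 * HR) + 1 / (2 * s) * (η * HR) := by gcongr
      _ = _ := by ring
  -- the total
  have hWtot : ∑ b ∈ T, WW (Nat.primesLE z) c d b
      ≤ ∑ b ∈ Fintype.piFinset (fun _ : Fin r => B), WW (Nat.primesLE z) c d b :=
    Finset.sum_le_sum_of_subset_of_nonneg (filter_subset _ _) fun b _ _ => hWW0 b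
  set SW := ∑ b ∈ Fintype.piFinset (fun _ : Fin r => B), WW (Nat.primesLE z) c d b with hSW
  have hTcard : (T.card : ℝ) ≤ HR := by
    have h2 : T.card ≤ H ^ r := by
      refine (Finset.card_le_card hTsub).trans ((card_injTuples_le r (Icc 1 H)).trans ?_)
      simp
    have h3 : (T.card : ℝ) ≤ ((H ^ r : ℕ) : ℝ) := by exact_mod_cast h2
    rw [hHR]
    simpa using h3
  have htotal : ∑ b ∈ T, (tcount (shift c d b) x : ℝ)
      ≤ K * D * Y * ((t * M1 / 2 + δ / (2 * t)) * HR)
        + ρ * Y * (SW + D * ((s * M1 / 2 + η / (2 * s)) * HR)) + r * HR := by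
    rw [← Finset.sum_sdiff (filter_subset (fun b => Adm (shift c d b) ∧
      ρ * SS (shift c d b) * Y ≤ tcount (shift c d b) x) T)]
    have h2 : ∑ b ∈ G, (tcount (shift c d b) x : ℝ) ≤ K * D * Y * ((t * M1 / 2 + δ / (2 * t)) * HR) := by
      calc ∑ b ∈ G, (tcount (shift c d b) x : ℝ) ≤ ∑ b ∈ G, K * (D * PP b 1 H) * Y :=
            Finset.sum_le_sum hup1
        _ = K * D * Y * ∑ b ∈ G, PP b 1 H := by
            rw [Finset.mul_sum]
            exact Finset.sum_congr rfl fun b _ => by ring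
        _ ≤ _ := by gcongr
    have h3 : ∑ b ∈ T \ G, (tcount (shift c d b) x : ℝ)
        ≤ ρ * Y * (SW + D * ((s * M1 / 2 + η / (2 * s)) * HR)) + r * HR := by
      calc ∑ b ∈ T \ G, (tcount (shift c d b) x : ℝ)
          ≤ ∑ b ∈ T \ G, (ρ * (WW (Nat.primesLE z) c d b * PP b z H) * Y + r) :=
            Finset.sum_le_sum hup2
        _ ≤ ∑ b ∈ T, (ρ * (WW (Nat.primesLE z) c d b * PP b z H) * Y + r) := by
            refine Finset.sum_le_sum_of_subset_of_nonneg Finset.sdiff_subset fun b _ _ => ?_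
            have h4 := hWW0 b
            have h5 := one_le_PP b z H
            positivity
        _ = ρ * Y * (∑ b ∈ T, WW (Nat.primesLE z) c d b
              + ∑ b ∈ T, WW (Nat.primesLE z) c d b * (PP b z H - 1)) + r * T.card := by
            rw [Finset.sum_add_distrib, Finset.sum_const, nsmul_eq_mul, ← Finset.sum_add_distrib,
              Finset.mul_sum]
            congr 1
            · exact Finset.sum_congr rfl fun b _ => by ring
            · ring
        _ ≤ ρ * Y * (SW + D * ((s * M1 / 2 + η / (2 * s)) * HR)) + r * HR := by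
            have h6 : ∑ b ∈ T, WW (Nat.primesLE z) c d b * (PP b z H - 1)
                ≤ D * ((s * M1 / 2 + η / (2 * s)) * HR) := by
              calc ∑ b ∈ T, WW (Nat.primesLE z) c d b * (PP b z H - 1)
                  ≤ ∑ b ∈ T, (D * PP b 1 H) * (PP b z H - 1) := by
                    refine Finset.sum_le_sum fun b hb => ?_
                    apply mul_le_mul_of_nonneg_right (hWWD b hb)
                    linarith [one_le_PP b z H]
                _ = D * ∑ b ∈ T, PP b 1 H * (PP b z H - 1) := by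
                    rw [Finset.mul_sum]
                    exact Finset.sum_congr rfl fun b _ => by ring
                _ ≤ _ := by gcongr
            gcongr
    rw [← hG]
    linarith
  -- constants
  have hc1 : K * (t * M1 / 2 + δ / (2 * t)) = E / 4 := by
    rw [hδ, ht]
    field_simp
    ring
  have hc2 : s * M1 / 2 + η / (2 * s) = E / 4 := by
    rw [hη, hs]
    field_simp
    ring
  have hSWge : D * (κ ^ r * HR) ≤ SW := by
    refine le_trans ?_ (sum_WW_ge (Nat.primesLE z) hs1 B c d r hr1 hd0)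
    rw [← hD]
    have h2 : κ ^ r * HR ≤ (B.card : ℝ) ^ r := by
      rw [hHR, ← mul_pow]
      exact pow_le_pow_left₀ (by positivity) hκH r
    gcongr
  have hrY : (r:ℝ) ≤ Y * (E / 8) := by
    rw [Real.rpow_zero, mul_one] at hx2
    rw [hY, div_mul_eq_mul_div, le_div_iff₀ (by positivity)]
    have h3 := mul_le_mul_of_nonneg_right hx2 (show 0 ≤ E / 8 by positivity)
    calc (r:ℝ) * Real.log x ^ r = 8 * r / E * Real.log x ^ r * (E / 8) := by field_simp
      _ ≤ _ := h3
  have hfin : (1 - γ) * Y * SW ≤ K * D * Y * ((t * M1 / 2 + δ / (2 * t)) * HR)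
        + ρ * Y * (SW + D * ((s * M1 / 2 + η / (2 * s)) * HR)) + r * HR := hlower.trans htotal
  rw [hc2] at hfin
  have e1 : K * D * Y * ((t * M1 / 2 + δ / (2 * t)) * HR) = Y * (D * HR) * (E / 4) := by
    rw [← hc1]; ring
  rw [e1] at hfin
  have e2 : (1 - γ) - ρ = γ := by rw [hγ]; ring
  have hA : γ * Y * (D * (κ ^ r * HR)) ≤ Y * (D * HR) * (E / 4) + ρ * Y * (D * (E / 4 * HR)) + r * HR := by
    have h2 : γ * Y * (D * (κ ^ r * HR)) ≤ γ * Y * SW := by gcongr
    have h3 : γ * Y * SW = (1 - γ) * Y * SW - ρ * Y * SW := by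
      have : γ = (1 - γ) - ρ := e2.symm
      calc γ * Y * SW = ((1 - γ) - ρ) * Y * SW := by rw [← this]
        _ = _ := by ring
    have h4 : ρ * Y * (SW + D * (E / 4 * HR)) = ρ * Y * SW + ρ * Y * (D * (E / 4 * HR)) := by ring
    linarith
  have hB1 : ρ * Y * (D * (E / 4 * HR)) ≤ Y * (D * HR) * (E / 4) := by
    have h2 : 0 ≤ Y * (D * HR) * (E / 4) := by positivity
    calc ρ * Y * (D * (E / 4 * HR)) = ρ * (Y * (D * HR) * (E / 4)) := by ring
      _ ≤ 1 * (Y * (D * HR) * (E / 4)) := by gcongr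
      _ = _ := one_mul _
  have hB2 : r * HR ≤ Y * (D * HR) * (E / 8) := by
    calc r * HR ≤ (Y * (E / 8)) * HR := by gcongr
      _ ≤ (Y * (E / 8)) * (D * HR) := by
          apply mul_le_mul_of_nonneg_left _ (by positivity)
          nlinarith
      _ = _ := by ring
  have e3 : γ * Y * (D * (κ ^ r * HR)) = Y * (D * HR) * E := by rw [hE]; ring
  rw [e3] at hA
  have hpos : 0 < Y * (D * HR) * E := by positivity
  linarith

end Pool.Agent.HL
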