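import Pool.Agent.Lib.HL.Desc

/-!
# Averages of products over primes dividing differences
-/

set_option autoImplicit false

open Finset

namespace Pool.Agent.HL

/-- Sum of a multiplicative-type function: `∑_{h ≤ y} ∏_{p ∈ P, p ∣ h} W_p ≤ y ∏ (1 + (W_p - 1)/p)`. -/
lemma sum_prod_dvd_le (P : Finset ℕ) (hP : ∀ p ∈ P, p.Prime) (W : ℕ → ℝ) (hW : ∀ p ∈ P, 1 ≤ W p)
    (y : ℕ) :
    ∑ h ∈ Icc 1 y, ∏ p ∈ P, (if p ∣ h then W p else 1)
      ≤ (y:ℝ) * ∏ p ∈ P, (1 + (W p - 1) / p) := by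
  classical
  have e1 : ∀ h, ∏ p ∈ P, (if p ∣ h then W p else 1)
      = ∑ T ∈ P.powerset, ∏ p ∈ T, (if p ∣ h then W p - 1 else 0) := by
    intro h
    rw [← Finset.prod_one_add]
    refine Finset.prod_congr rfl fun p _ => ?_
    split_ifs <;> ring
  simp_rw [e1]
  rw [Finset.sum_comm, Finset.prod_one_add, Finset.mul_sum]
  refine Finset.sum_le_sum fun T hT => ?_
  rw [mem_powerset] at hT
  have e2 : ∀ h, ∏ p ∈ T, (if p ∣ h then W p - 1 else 0)
      = if (∏ p ∈ T, p) ∣ h then ∏ p ∈ T, (W p - 1) else 0 := by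
    intro h
    by_cases hd : (∏ p ∈ T, p) ∣ h
    · rw [if_pos hd]
      refine Finset.prod_congr rfl fun p hp => ?_
      rw [if_pos ((Finset.dvd_prod_of_mem _ hp).trans hd)]
    · rw [if_neg hd]
      have : ∃ p ∈ T, ¬ p ∣ h := by
        by_contra hcon
        push Not at hcon
        apply hd
        exact Finset.prod_primes_dvd h (fun p hp => (hP p (hT hp)).prime) hcon
      obtain ⟨p, hp, hpd⟩ := this
      exact Finset.prod_eq_zero hp (if_neg hpd)
  simp_rw [e2]
  rw [← Finset.sum_filter, Finset.sum_const, nsmul_eq_mul]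
  have hIcc : Icc 1 y = Ioc 0 y := by
    ext n; simp [Nat.succ_le_iff]
  rw [hIcc, Nat.Ioc_filter_dvd_card_eq_div]
  have hpos : (0:ℝ) < ∏ p ∈ T, (p:ℝ) := Finset.prod_pos fun p hp => by
    exact_mod_cast (hP p (hT hp)).pos
  have h1 : ((y / (∏ p ∈ T, p) : ℕ) : ℝ) ≤ (y:ℝ) / ∏ p ∈ T, (p:ℝ) := by
    have := Nat.cast_div_le (α := ℝ) (m := y) (n := ∏ p ∈ T, p)
    push_cast at this
    exact this
  have h2 : 0 ≤ ∏ p ∈ T, (W p - 1) := Finset.prod_nonneg fun p hp => by
    have := hW p (hT hp)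
    linarith
  calc ((y / (∏ p ∈ T, p) : ℕ) : ℝ) * ∏ p ∈ T, (W p - 1)
      ≤ (y:ℝ) / (∏ p ∈ T, (p:ℝ)) * ∏ p ∈ T, (W p - 1) := by gcongr
    _ = (y:ℝ) * ∏ p ∈ T, ((W p - 1) / p) := by
        rw [Finset.prod_div_distrib]
        ring

/-- the weight `(1 - 1/p)^{-k}`. -/
noncomputable def ww (k p : ℕ) : ℝ := ((1 - 1 / (p:ℝ))⁻¹) ^ k

lemma one_le_inv {p : ℕ} (hp : p.Prime) : 1 ≤ (1 - 1 / (p:ℝ))⁻¹ := by
  have hp1 : (1:ℝ) < p := by exact_mod_cast hp.one_lt
  have h2 : 1 / (p : ℝ) < 1 := by rw [div_lt_one (by linarith)]; exact hp1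
  have h3 : 0 < 1 / (p:ℝ) := by positivity
  exact (one_le_inv₀ (by linarith)).mpr (by linarith)

lemma one_le_ww (k : ℕ) {p : ℕ} (hp : p.Prime) : 1 ≤ ww k p := one_le_pow₀ (one_le_inv hp)

lemma ww_pow (k N p : ℕ) : ww k p ^ N = ww (k * N) p := by
  unfold ww
  rw [← pow_mul]

lemma inv_le_aux {p : ℕ} (hp : p.Prime) : (1 - 1 / (p:ℝ))⁻¹ ≤ 1 + 2 / p := by
  have hp2 : (2:ℝ) ≤ p := by exact_mod_cast hp.two_le
  have h2 : 1 / (p : ℝ) ≤ 1 / 2 := by
    apply one_div_le_one_div_of_le (by norm_num) hp2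
  rw [inv_le_comm₀ (by linarith) (by positivity), inv_eq_one_div, div_le_iff₀ (by positivity)]
  have h3 : (1 - 1 / (p:ℝ)) * (1 + 2 / p) = 1 + (1 / (p:ℝ)) * (1 - 2 * (1 / (p:ℝ))) := by
    field_simp
    ring
  rw [h3]
  have h4 : 0 ≤ (1 / (p:ℝ)) * (1 - 2 * (1 / (p:ℝ))) := mul_nonneg (by positivity) (by linarith)
  linarith

lemma one_add_pow_le (K : ℕ) {u : ℝ} (h0 : 0 ≤ u) (h1 : u ≤ 1) :
    (1 + u) ^ K ≤ 1 + u * (2 ^ K - 1) := by
  induction K with
  | zero => simp
  | succ K ih =>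
    have h2 : (1:ℝ) ≤ 2 ^ K := one_le_pow₀ (by norm_num)
    calc (1 + u) ^ (K + 1) = (1 + u) ^ K * (1 + u) := pow_succ _ _
      _ ≤ (1 + u * (2 ^ K - 1)) * (1 + u) := by gcongr
      _ = 1 + u + u * (2 ^ K - 1) + u * (u * (2 ^ K - 1)) := by ring
      _ ≤ 1 + u + u * (2 ^ K - 1) + 1 * (u * (2 ^ K - 1)) := by
          have : 0 ≤ u * (2 ^ K - 1) := mul_nonneg h0 (by linarith)
          gcongr
      _ = 1 + u * (2 ^ (K + 1) - 1) := by rw [pow_succ]; ring

lemma ww_sub_one_le (K : ℕ) {p : ℕ} (hp : p.Prime) : ww K p - 1 ≤ 2 ^ (K + 1) / p := by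
  have hp2 : (2:ℝ) ≤ p := by exact_mod_cast hp.two_le
  have h1 : ww K p ≤ (1 + 2 / (p:ℝ)) ^ K := by
    unfold ww
    exact pow_le_pow_left₀ (by linarith [one_le_inv hp]) (inv_le_aux hp) K
  have h2 := one_add_pow_le K (u := 2 / (p:ℝ)) (by positivity) (by
    rw [div_le_one (by linarith)]; exact hp2)
  have h4 : (0:ℝ) < 2 ^ K := by positivity
  have h3 : 2 / (p:ℝ) * (2 ^ K - 1) ≤ 2 ^ (K + 1) / p := by
    rw [pow_succ, div_mul_eq_mul_div]
    apply div_le_div_of_nonneg_right _ (by linarith)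
    linarith
  linarith

lemma sum_inv_sq_le {z : ℕ} (hz : 1 ≤ z) (H : ℕ) :
    ∑ n ∈ Ioc z H, (1:ℝ) / ((n:ℝ) ^ 2) ≤ (1:ℝ) / z := by
  have hz0 : (0:ℝ) < z := by exact_mod_cast hz
  rcases le_or_gt H z with h | h
  · rw [Ioc_eq_empty (by omega)]
    simp
  · have key : ∀ H, z ≤ H → ∑ n ∈ Ioc z H, (1:ℝ) / ((n:ℝ) ^ 2) ≤ (1:ℝ) / z - (1:ℝ) / H := by
      intro H hH
      induction H, hH using Nat.le_induction with
      | base => simp
      | succ m hm ih =>
        rw [← Finset.insert_Ioc_right_eq_Ioc_add_one hm, Finset.sum_insert (by simp)]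
        have hm0 : (0:ℝ) < m := by
          have : 0 < m := by omega
          exact_mod_cast this
        have : 1 / (((m + 1 : ℕ):ℝ) ^ 2) ≤ 1 / m - 1 / ((m + 1 : ℕ):ℝ) := by
          push_cast
          rw [div_sub_div _ _ hm0.ne' (by positivity), div_le_div_iff₀ (by positivity) (by positivity)]
          nlinarith
        linarith
    have := key H h.le
    have h0 : (0:ℝ) ≤ 1 / H := by positivity
    linarith

/-- The primes in `(z, H]`. -/
def primesIoc (z H : ℕ) : Finset ℕ := (Ioc z H).filter Nat.Prime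

lemma prod_one_add_ww_le {z : ℕ} (hz : 1 ≤ z) (H K : ℕ) :
    ∏ p ∈ primesIoc z H, (1 + (ww K p - 1) / p) ≤ Real.exp (2 ^ (K + 1) / z) := by
  calc ∏ p ∈ primesIoc z H, (1 + (ww K p - 1) / p)
      ≤ ∏ p ∈ primesIoc z H, Real.exp (2 ^ (K+1) * (1 / ((p:ℝ) ^ 2))) := by
        refine Finset.prod_le_prod (fun p hp => ?_) (fun p hp => ?_)
        · have hpp : p.Prime := (mem_filter.mp hp).2
          have h1 := one_le_ww K hpp
          have h2 : (0:ℝ) ≤ (ww K p - 1) / p := div_nonneg (by linarith) (Nat.cast_nonneg _)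
          linarith
        · have hpp : p.Prime := (mem_filter.mp hp).2
          have hp0 : (0:ℝ) < p := by exact_mod_cast hpp.pos
          have h1 := ww_sub_one_le K hpp
          have h2 : (ww K p - 1) / p ≤ 2 ^ (K+1) * (1 / ((p:ℝ) ^ 2)) := by
            calc (ww K p - 1) / p ≤ (2 ^ (K + 1) / p) / p := by gcongr
              _ = _ := by field_simp
          have h3 := Real.add_one_le_exp (2 ^ (K+1) * (1 / ((p:ℝ) ^ 2)))
          linarith
    _ = Real.exp (2 ^ (K+1) * ∑ p ∈ primesIoc z H, (1 / ((p:ℝ) ^ 2))) := by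
        rw [← Real.exp_sum, Finset.mul_sum]
    _ ≤ Real.exp (2 ^ (K + 1) / z) := by
        apply Real.exp_le_exp.mpr
        have h1 : ∑ p ∈ primesIoc z H, (1 / ((p:ℝ) ^ 2)) ≤ ∑ n ∈ Ioc z H, 1 / ((n:ℝ) ^ 2) :=
          Finset.sum_le_sum_of_subset_of_nonneg (Finset.filter_subset _ _) (fun _ _ _ => by positivity)
        have h2 := h1.trans (sum_inv_sq_le hz H)
        calc (2:ℝ) ^ (K+1) * ∑ p ∈ primesIoc z H, (1 / ((p:ℝ) ^ 2)) ≤ 2 ^ (K+1) * (1 / z) := by gcongr
          _ = _ := by ring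

/-- The function of a difference. -/
noncomputable def gd (K z H h : ℕ) : ℝ := ∏ p ∈ primesIoc z H, (if p ∣ h then ww K p else 1)

lemma one_le_gd (K z H h : ℕ) : 1 ≤ gd K z H h := by
  unfold gd
  refine Finset.one_le_prod fun p hp => ?_
  split_ifs
  · exact one_le_ww K (mem_filter.mp hp).2
  · exact le_rfl

lemma sum_gd_le {z : ℕ} (hz : 1 ≤ z) (H K y : ℕ) :
    ∑ h ∈ Icc 1 y, gd K z H h ≤ Real.exp (2 ^ (K + 1) / z) * y := by
  have h1 := sum_prod_dvd_le (primesIoc z H) (fun p hp => (mem_filter.mp hp).2) (ww K)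
    (fun p hp => one_le_ww K (mem_filter.mp hp).2) y
  refine h1.trans ?_
  rw [mul_comm]
  exact mul_le_mul_of_nonneg_right (prod_one_add_ww_le hz H K) (Nat.cast_nonneg _)

/-- Distance of two naturals. -/
def nd (u v : ℕ) : ℕ := ((u:ℤ) - v).natAbs

lemma sum_gd_nd_le {z : ℕ} (hz : 1 ≤ z) (H K u : ℕ) (hu : u ∈ Icc 1 H) :
    ∑ v ∈ (Icc 1 H).filter (fun v => v ≠ u), gd K z H (nd u v) ≤ Real.exp (2 ^ (K + 1) / z) * H := by
  classical
  rw [mem_Icc] at hu
  have hsplit : (Icc 1 H).filter (fun v => v ≠ u) = (Ico 1 u) ∪ (Ioc u H) := by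
    ext v
    simp only [mem_filter, mem_Icc, mem_union, mem_Ico, mem_Ioc]
    omega
  have hdisj : Disjoint (Ico 1 u) (Ioc u H) := by
    rw [Finset.disjoint_left]
    intro v h1 h2
    rw [mem_Ico] at h1
    rw [mem_Ioc] at h2
    omega
  rw [hsplit, Finset.sum_union hdisj]
  have e1 : ∑ v ∈ Ico 1 u, gd K z H (nd u v) = ∑ h ∈ Icc 1 (u - 1), gd K z H h := by
    refine Finset.sum_bij' (fun v _ => u - v) (fun h _ => u - h) ?_ ?_ ?_ ?_ ?_
    · intro v hv; rw [mem_Ico] at hv; rw [mem_Icc]; omega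
    · intro h hh; rw [mem_Icc] at hh; rw [mem_Ico]; omega
    · intro v hv; rw [mem_Ico] at hv; omega
    · intro h hh; rw [mem_Icc] at hh; omega
    · intro v hv
      rw [mem_Ico] at hv
      have : nd u v = u - v := by unfold nd; omega
      rw [this]
  have e2 : ∑ v ∈ Ioc u H, gd K z H (nd u v) = ∑ h ∈ Icc 1 (H - u), gd K z H h := by
    refine Finset.sum_bij' (fun v _ => v - u) (fun h _ => u + h) ?_ ?_ ?_ ?_ ?_
    · intro v hv; rw [mem_Ioc] at hv; rw [mem_Icc]; omega
    · intro h hh; rw [mem_Icc] at hh; rw [mem_Ioc]; omega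
    · intro v hv; rw [mem_Ioc] at hv; omega
    · intro h hh; rw [mem_Icc] at hh; omega
    · intro v hv
      rw [mem_Ioc] at hv
      have : nd u v = v - u := by unfold nd; omega
      rw [this]
  rw [e1, e2]
  have h1 := sum_gd_le hz H K (u - 1)
  have h2 := sum_gd_le hz H K (H - u)
  have h3 : ((u - 1 : ℕ) : ℝ) + ((H - u : ℕ) : ℝ) ≤ H := by
    have : (u - 1) + (H - u) ≤ H := by omega
    exact_mod_cast this
  have h4 : 0 < Real.exp (2 ^ (K + 1) / z) := Real.exp_pos _
  nlinarith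

/-- Average of a function of two coordinates over injective tuples. -/
lemma sum_injTuples_pair_le {r : ℕ} (i j : Fin r) (hij : i ≠ j) (H : ℕ) (G : ℕ → ℕ → ℝ)
    (hG : ∀ u v, 0 ≤ G u v) {M : ℝ}
    (hM : ∀ u ∈ Icc 1 H, ∑ v ∈ (Icc 1 H).filter (fun v => v ≠ u), G u v ≤ M * H) :
    ∑ b ∈ injTuples r (Icc 1 H), G (b i) (b j) ≤ M * (H:ℝ) ^ r := by
  classical
  set T := Icc 1 H with hT
  have hTc : T.card = H := by rw [hT]; simp
  have hr : 2 ≤ r := by
    have h1 := i.2
    have h2 := j.2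
    have h3 : (i:ℕ) ≠ j := fun h => hij (Fin.ext h)
    omega
  -- fibre over the pair (b i, b j)
  have hmaps : ∀ b ∈ injTuples r T, (b i, b j) ∈ (T ×ˢ T).filter (fun w => w.2 ≠ w.1) := by
    intro b hb
    rw [mem_injTuples] at hb
    rw [mem_filter, mem_product]
    exact ⟨⟨hb.1 i, hb.1 j⟩, fun h => hij (hb.2 h.symm)⟩
  rw [← Finset.sum_fiberwise_of_maps_to hmaps]
  have hfib : ∀ w ∈ (T ×ˢ T).filter (fun w => w.2 ≠ w.1),
      ∑ b ∈ (injTuples r T).filter (fun b => (b i, b j) = w), G (b i) (b j)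
        ≤ G w.1 w.2 * (H:ℝ) ^ (r - 2) := by
    intro w hw
    rw [mem_filter, mem_product] at hw
    have e1 : ∀ b ∈ (injTuples r T).filter (fun b => (b i, b j) = w), G (b i) (b j) = G w.1 w.2 := by
      intro b hb
      rw [mem_filter] at hb
      rw [← hb.2]
    rw [Finset.sum_congr rfl e1, Finset.sum_const, nsmul_eq_mul, mul_comm]
    refine mul_le_mul_of_nonneg_left ?_ (hG _ _)
    have hsub : (injTuples r T).filter (fun b => (b i, b j) = w)
        ⊆ Fintype.piFinset (fun k => if k = i then {w.1} else if k = j then {w.2} else T) := by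
      intro b hb
      rw [mem_filter, mem_injTuples] at hb
      rw [Fintype.mem_piFinset]
      intro k
      by_cases hki : k = i
      · subst hki
        simp [← hb.2]
      · by_cases hkj : k = j
        · subst hkj
          simp [hki, ← hb.2]
        · simp [hki, hkj, hb.1.1 k]
    have hcard := Finset.card_le_card hsub
    rw [Fintype.card_piFinset] at hcard
    have e2 : ∏ k : Fin r, (if k = i then ({w.1} : Finset ℕ) else if k = j then {w.2} else T).card
        = H ^ (r - 2) := by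
      have e3 : ∀ k : Fin r, (if k = i then ({w.1} : Finset ℕ) else if k = j then {w.2} else T).card
          = if k ∈ (univ \ {i, j} : Finset (Fin r)) then H else 1 := by
        intro k
        by_cases hki : k = i
        · simp [hki]
        · by_cases hkj : k = j
          · have : ¬ (j = i) := fun h => hij h.symm
            simp [hkj, this]
          · simp [hki, hkj, hTc]
      rw [Finset.prod_congr rfl (fun k _ => e3 k), Finset.prod_ite_mem, Finset.univ_inter,
        Finset.prod_const, Finset.card_sdiff_of_subset (subset_univ _), Finset.card_univ,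
        Fintype.card_fin, Finset.card_pair hij]
    rw [e2] at hcard
    exact_mod_cast hcard
  refine (Finset.sum_le_sum hfib).trans ?_
  rw [← Finset.sum_mul, Finset.sum_filter, Finset.sum_product]
  have h1 : ∑ u ∈ T, ∑ v ∈ T, (if v ≠ u then G u v else 0) ≤ M * (H:ℝ) ^ 2 := by
    calc ∑ u ∈ T, ∑ v ∈ T, (if v ≠ u then G u v else 0)
        ≤ ∑ u ∈ T, M * H := by
          refine Finset.sum_le_sum fun u hu => ?_
          rw [← Finset.sum_filter]
          exact hM u hu
      _ = M * (H:ℝ) ^ 2 := by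
          rw [Finset.sum_const, hTc, nsmul_eq_mul]
          ring
  calc (∑ u ∈ T, ∑ v ∈ T, (if v ≠ u then G u v else 0)) * (H:ℝ) ^ (r - 2)
      ≤ (M * (H:ℝ) ^ 2) * (H:ℝ) ^ (r - 2) := by gcongr
    _ = M * (H:ℝ) ^ r := by
        rw [mul_assoc, ← pow_add]
        congr 2
        omega

/-- The primes in `(z, H]` dividing some difference of the tuple. -/
def badPrimes {r : ℕ} (b : Fin r → ℕ) (z H : ℕ) : Finset ℕ :=
  (primesIoc z H).filter (fun p => ∃ i j : Fin r, i ≠ j ∧ p ∣ nd (b i) (b j))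

/-- The main average. -/
theorem avg_badPrimes {r : ℕ} (hr : 2 ≤ r) (k : ℕ) {z : ℕ} (hz : 1 ≤ z) (H : ℕ) :
    ∑ b ∈ injTuples r (Icc 1 H), ∏ p ∈ badPrimes b z H, ww k p
      ≤ Real.exp (2 ^ (k * (r * (r - 1)) + 1) / z) * (H:ℝ) ^ r := by
  classical
  set s : Finset (Fin r × Fin r) := univ.filter (fun w => w.1 ≠ w.2) with hs
  set N := s.card with hN
  have hNval : N = r * (r - 1) := by
    have : s = (univ : Finset (Fin r)).offDiag := by
      ext w; simp [hs]
    rw [hN, this, Finset.offDiag_card, Finset.card_univ, Fintype.card_fin, Nat.mul_sub_one]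
  have hNpos : 0 < N := by
    rw [hNval]
    exact Nat.mul_pos (by omega) (by omega)
  have hN0 : (0:ℝ) < N := by exact_mod_cast hNpos
  -- pointwise bound
  have hpt : ∀ b : Fin r → ℕ, ∏ p ∈ badPrimes b z H, ww k p
      ≤ ∑ w ∈ s, (1 / (N:ℝ)) * gd (k * N) z H (nd (b w.1) (b w.2)) := by
    intro b
    have h1 : ∏ p ∈ badPrimes b z H, ww k p ≤ ∏ w ∈ s, gd k z H (nd (b w.1) (b w.2)) := by
      unfold gd
      rw [Finset.prod_comm]
      have e1 : ∏ p ∈ badPrimes b z H, ww k p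
          = ∏ p ∈ primesIoc z H, (if p ∈ badPrimes b z H then ww k p else 1) := by
        rw [Finset.prod_ite_mem]
        congr 1
        unfold badPrimes
        ext p
        simp
      rw [e1]
      refine Finset.prod_le_prod (fun p hp => ?_) (fun p hp => ?_)
      · split_ifs
        · linarith [one_le_ww k (mem_filter.mp hp).2]
        · norm_num
      · have hpp : p.Prime := (mem_filter.mp hp).2
        have hge : ∀ w ∈ s, 1 ≤ (if p ∣ nd (b w.1) (b w.2) then ww k p else 1) := by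
          intro w _
          split_ifs
          · exact one_le_ww k hpp
          · exact le_rfl
        split_ifs with hb
        · unfold badPrimes at hb
          rw [mem_filter] at hb
          obtain ⟨i, j, hij, hdvd⟩ := hb.2
          have hmem : (i, j) ∈ s := by simp [hs, hij]
          rw [← Finset.mul_prod_erase s _ hmem]
          have h2 : 1 ≤ ∏ w ∈ s.erase (i, j), (if p ∣ nd (b w.1) (b w.2) then ww k p else 1) :=
            Finset.one_le_prod fun w hw => hge w (Finset.mem_of_mem_erase hw)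
          simp only [hdvd, if_true]
          have h3 := one_le_ww k hpp
          nlinarith
        · exact Finset.one_le_prod hge
    refine h1.trans ?_
    have hAG := Real.geom_mean_le_arith_mean_weighted s (fun _ => 1 / (N:ℝ))
      (fun w => gd k z H (nd (b w.1) (b w.2)) ^ N) (fun _ _ => by positivity)
      (by rw [Finset.sum_const, nsmul_eq_mul, ← hN]; field_simp)
      (fun w _ => by
        have := one_le_gd k z H (nd (b w.1) (b w.2))
        positivity)
    have e2 : ∏ w ∈ s, (gd k z H (nd (b w.1) (b w.2)) ^ N) ^ (1 / (N:ℝ))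
        = ∏ w ∈ s, gd k z H (nd (b w.1) (b w.2)) := by
      refine Finset.prod_congr rfl fun w _ => ?_
      have := one_le_gd k z H (nd (b w.1) (b w.2))
      rw [← Real.rpow_natCast, ← Real.rpow_mul (by linarith), mul_one_div_cancel hN0.ne',
        Real.rpow_one]
    rw [e2] at hAG
    refine hAG.trans (le_of_eq ?_)
    refine Finset.sum_congr rfl fun w _ => ?_
    congr 1
    unfold gd
    rw [← Finset.prod_pow]
    refine Finset.prod_congr rfl fun p _ => ?_
    split_ifs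
    · exact ww_pow k N p
    · simp
  calc ∑ b ∈ injTuples r (Icc 1 H), ∏ p ∈ badPrimes b z H, ww k p
      ≤ ∑ b ∈ injTuples r (Icc 1 H), ∑ w ∈ s, (1 / (N:ℝ)) * gd (k * N) z H (nd (b w.1) (b w.2)) :=
        Finset.sum_le_sum fun b _ => hpt b
    _ = ∑ w ∈ s, (1 / (N:ℝ)) * ∑ b ∈ injTuples r (Icc 1 H), gd (k * N) z H (nd (b w.1) (b w.2)) := by
        rw [Finset.sum_comm]
        refine Finset.sum_congr rfl fun w _ => ?_
        rw [Finset.mul_sum]
    _ ≤ ∑ w ∈ s, (1 / (N:ℝ)) * (Real.exp (2 ^ (k * N + 1) / z) * (H:ℝ) ^ r) := by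
        refine Finset.sum_le_sum fun w hw => ?_
        refine mul_le_mul_of_nonneg_left ?_ (by positivity)
        rw [hs, mem_filter] at hw
        refine sum_injTuples_pair_le w.1 w.2 hw.2 H (fun u v => gd (k * N) z H (nd u v)) ?_ ?_
        · intro u v
          have := one_le_gd (k * N) z H (nd u v)
          linarith
        · intro u hu
          exact sum_gd_nd_le hz H (k * N) u hu
    _ = Real.exp (2 ^ (k * N + 1) / z) * (H:ℝ) ^ r := by
        rw [Finset.sum_const, ← hN, nsmul_eq_mul]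
        field_simp
    _ = _ := by rw [hNval]

end Pool.Agent.HL
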