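import Pool.Agent.Lib.HL.LowerMain
import Pool.Agent.Lib.HL.SingAvg
import Pool.Agent.Lib.Sieve4.TupleUpper

/-!
# Bounds for the singular series of a tuple in terms of the primes dividing the differences
-/

set_option autoImplicit false

open Finset Filter Topology

namespace Pool.Agent.HL

open Pool.Agent.Lib.Sieve4

lemma nu_le_prime {r : ℕ} (a : Fin r → ℤ) {p : ℕ} (hp : p.Prime) : nu a p ≤ p := by
  rw [← card_Om a p hp]
  have := Finset.card_le_card (Om_subset a p hp)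
  simpa using this

lemma loc_nonneg {r : ℕ} (a : Fin r → ℤ) {p : ℕ} (hp : p.Prime) : 0 ≤ loc a p := by
  unfold loc
  have h1 : (nu a p : ℝ) ≤ p := by exact_mod_cast nu_le_prime a hp
  have hp0 : (0:ℝ) < p := by exact_mod_cast hp.pos
  have h2 : (nu a p : ℝ) / p ≤ 1 := by rw [div_le_one hp0]; exact h1
  have h3 := one_sub_inv_pos hp
  have : 0 ≤ ((1 - 1 / (p:ℝ))⁻¹) ^ r := by positivity
  exact mul_nonneg (by linarith) this

lemma loc_le_ww {r : ℕ} (hr : 1 ≤ r) (a : Fin r → ℤ) {p : ℕ} (hp : p.Prime) :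
    loc a p ≤ ww (r-1) p := by
  unfold loc ww
  have h1 : (1:ℝ) ≤ nu a p := by exact_mod_cast nu_pos hr a p
  have hp0 : (0:ℝ) < p := by exact_mod_cast hp.pos
  have h3 := one_sub_inv_pos hp
  have h2 : (1:ℝ) - nu a p / p ≤ 1 - 1 / p := by
    have : (1:ℝ) / p ≤ nu a p / p := by gcongr
    linarith
  obtain ⟨k, rfl⟩ : ∃ k, r = k + 1 := ⟨r - 1, by omega⟩
  simp only [Nat.add_sub_cancel]
  calc (1 - (nu a p : ℝ) / p) * ((1 - 1 / (p:ℝ))⁻¹) ^ (k+1)
      ≤ (1 - 1 / p) * ((1 - 1 / (p:ℝ))⁻¹) ^ (k+1) := by gcongr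
    _ = ((1 - 1 / (p:ℝ))⁻¹) ^ k * ((1 - 1 / (p:ℝ))⁻¹ * (1 - 1 / p)) := by
      rw [pow_succ]
      ring
    _ = ((1 - 1 / (p:ℝ))⁻¹) ^ k := by
      rw [inv_mul_cancel₀ h3.ne', mul_one]

lemma nd_cast_dvd {p u v : ℕ} (h : ¬ p ∣ nd u v) : ¬ ((p:ℤ) ∣ (u:ℤ) - v) := by
  unfold nd at h
  rwa [← Int.natCast_dvd] at h

lemma loc_le_one_of_not_dvd {r : ℕ} (c d : ℕ) (b : Fin r → ℕ) {p : ℕ} (hp : p.Prime)
    (hpd : ¬ p ∣ d) (h : ∀ i j, i ≠ j → ¬ p ∣ nd (b i) (b j)) : loc (shift c d b) p ≤ 1 := by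
  have h1 : nu (shift c d b) p = r := by
    apply nu_eq
    intro i j hij hdvd
    have e : shift c d b i - shift c d b j = (d:ℤ) * ((b i : ℤ) - b j) := by
      unfold shift
      push_cast
      ring
    rw [e] at hdvd
    have hpp : Prime (p:ℤ) := Nat.prime_iff_prime_int.mp hp
    rcases hpp.dvd_or_dvd hdvd with h2 | h2
    · exact hpd (by exact_mod_cast h2)
    · exact nd_cast_dvd (h i j hij) h2
  refine loc_le_one _ p hp h1 ?_
  have := nu_le_prime (shift c d b) hp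
  omega

lemma mem_primesIoc {z H p : ℕ} : p ∈ primesIoc z H ↔ (z < p ∧ p ≤ H) ∧ p.Prime := by
  unfold primesIoc
  rw [mem_filter, mem_Ioc]

lemma nd_lt {H u v : ℕ} (hu : u ∈ Icc 1 H) (hv : v ∈ Icc 1 H) : nd u v < H := by
  rw [mem_Icc] at hu hv
  unfold nd
  omega

lemma nd_pos {u v : ℕ} (h : u ≠ v) : 0 < nd u v := by
  unfold nd
  omega

lemma prod_loc_le_bad {r : ℕ} (hr : 1 ≤ r) (c d H z : ℕ) (b : Fin r → ℕ)
    (hb : b ∈ injTuples r (Icc 1 H)) (F : Finset ℕ) (hF : ∀ p ∈ F, p.Prime ∧ ¬ p ∣ d ∧ z < p) :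
    ∏ p ∈ F, loc (shift c d b) p ≤ ∏ p ∈ badPrimes b z H, ww (r-1) p := by
  classical
  rw [mem_injTuples] at hb
  have h1 : ∏ p ∈ F, loc (shift c d b) p
      ≤ ∏ p ∈ F, (if p ∈ badPrimes b z H then ww (r-1) p else 1) := by
    refine Finset.prod_le_prod (fun p hp => loc_nonneg _ (hF p hp).1) (fun p hp => ?_)
    split_ifs with h
    · exact loc_le_ww hr _ (hF p hp).1
    · refine loc_le_one_of_not_dvd c d b (hF p hp).1 (hF p hp).2.1 ?_
      intro i j hij hdvd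
      apply h
      unfold badPrimes
      rw [mem_filter, mem_primesIoc]
      refine ⟨⟨⟨(hF p hp).2.2, ?_⟩, (hF p hp).1⟩, i, j, hij, hdvd⟩
      have h2 := nd_lt (hb.1 i) (hb.1 j)
      have h3 := nd_pos (fun h => hij (hb.2 h))
      have h4 := Nat.le_of_dvd h3 hdvd
      omega
  refine h1.trans ?_
  rw [Finset.prod_ite, Finset.prod_const_one, mul_one]
  apply Finset.prod_le_prod_of_subset_of_one_le
  · intro p hp
    exact (mem_filter.mp hp).2
  · intro p hp
    exact (zero_le_one.trans (one_le_ww _ (hF p (mem_filter.mp hp).1).1))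
  · intro p hp _
    exact one_le_ww _ (mem_primesIoc.mp (mem_filter.mp hp).1).2

lemma prod_loc_primeFactors {r : ℕ} (hr : 1 ≤ r) (c d : ℕ) (b : Fin r → ℕ) :
    ∏ p ∈ d.primeFactors, loc (shift c d b) p = ((DD1 d)⁻¹) ^ (r - 1) := by
  unfold DD1
  rw [← Finset.prod_inv_distrib, ← Finset.prod_pow]
  refine Finset.prod_congr rfl fun p hp => ?_
  rw [Nat.mem_primeFactors] at hp
  exact loc_shift_of_dvd hr c d b hp.1 hp.2.1

lemma one_le_prod_bad {r : ℕ} (b : Fin r → ℕ) (z H k : ℕ) :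
    1 ≤ ∏ p ∈ badPrimes b z H, ww k p :=
  Finset.one_le_prod fun _ hp => one_le_ww _ (mem_primesIoc.mp (mem_filter.mp hp).1).2

lemma WW_nonneg {r : ℕ} (s1 : Finset ℕ) (h1 : ∀ p ∈ s1, p.Prime) (c d : ℕ) (b : Fin r → ℕ) :
    0 ≤ WW s1 c d b := by
  unfold WW
  refine Finset.prod_nonneg fun p hp => loc_nonneg _ ?_
  rcases mem_union.mp hp with h | h
  · exact h1 p h
  · exact Nat.prime_of_mem_primeFactors h

/-- Upper bound for the partial singular series. -/
lemma WW_le {r : ℕ} (hr : 1 ≤ r) (s1 : Finset ℕ) (h1 : ∀ p ∈ s1, p.Prime) (c d H : ℕ) (hd : d ≠ 0)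
    (b : Fin r → ℕ) (hb : b ∈ injTuples r (Icc 1 H)) :
    WW s1 c d b ≤ ((DD1 d)⁻¹) ^ (r - 1) * ∏ p ∈ badPrimes b 1 H, ww (r-1) p := by
  classical
  unfold WW
  have hun : s1 ∪ d.primeFactors = d.primeFactors ∪ (s1 \ d.primeFactors) := by
    rw [Finset.union_sdiff_self_eq_union, Finset.union_comm]
  rw [hun, Finset.prod_union Finset.disjoint_sdiff, prod_loc_primeFactors hr]
  have := DD1_pos d
  apply mul_le_mul_of_nonneg_left _ (by positivity)
  apply prod_loc_le_bad hr c d H 1 b hb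
  intro p hp
  rw [Finset.mem_sdiff, Nat.mem_primeFactors] at hp
  have hpp := h1 p hp.1
  exact ⟨hpp, fun h => hp.2 ⟨hpp, h, hd⟩, hpp.one_lt⟩

/-- Upper bound for the full singular series. -/
lemma SS_le {r : ℕ} (hr : 1 ≤ r) (c d H : ℕ) (hd : d ≠ 0)
    (b : Fin r → ℕ) (hb : b ∈ injTuples r (Icc 1 H)) (z : ℕ) {S : ℝ}
    (hS : HasProd (fun p : Nat.Primes => loc (shift c d b) p) S) :
    S ≤ WW (Nat.primesLE z) c d b * ∏ p ∈ badPrimes b z H, ww (r-1) p := by
  classical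
  have hA : ∀ p ∈ Nat.primesLE z ∪ d.primeFactors, p.Prime := by
    intro p hp
    rcases mem_union.mp hp with h | h
    · exact (Nat.mem_primesLE.1 h).2
    · exact Nat.prime_of_mem_primeFactors h
  set F : Finset Nat.Primes := (Nat.primesLE z ∪ d.primeFactors).attach.map
    ⟨fun p => ⟨p.1, hA p.1 p.2⟩, by
      intro p q h; exact Subtype.ext (congrArg (fun t : Nat.Primes => (t : ℕ)) h)⟩ with hF
  have hFprod : ∏ p ∈ F, loc (shift c d b) (p : ℕ) = WW (Nat.primesLE z) c d b := by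
    rw [hF, Finset.prod_map]
    unfold WW
    exact Finset.prod_attach (Nat.primesLE z ∪ d.primeFactors) (fun p => loc (shift c d b) p)
  have hmemF : ∀ p : Nat.Primes, p ∉ F → ¬ (p:ℕ) ∣ d ∧ z < (p:ℕ) := by
    intro p hp
    have h2 : (p:ℕ) ∉ Nat.primesLE z ∪ d.primeFactors := by
      intro h3
      apply hp
      rw [hF, Finset.mem_map]
      exact ⟨⟨(p:ℕ), h3⟩, mem_attach _ _, rfl⟩
    rw [mem_union, not_or, Nat.mem_primesLE, Nat.mem_primeFactors] at h2
    have hpp := p.2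
    refine ⟨fun h => h2.2 ⟨hpp, h, hd⟩, ?_⟩
    by_contra hcon
    exact h2.1 ⟨by omega, hpp⟩
  refine le_of_tendsto hS ?_
  rw [SummationFilter.unconditional_filter, Filter.eventually_atTop]
  refine ⟨F, fun F' hF' => ?_⟩
  rw [← Finset.prod_sdiff hF', hFprod, mul_comm]
  apply mul_le_mul_of_nonneg_left _ (WW_nonneg _ (fun p hp => (Nat.mem_primesLE.1 hp).2) c d b)
  have h1 := prod_loc_le_bad hr c d H z b hb
    ((F' \ F).map ⟨fun p : Nat.Primes => (p : ℕ), Nat.Primes.coe_nat_injective⟩)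
    (by
      intro p hp
      rw [Finset.mem_map] at hp
      obtain ⟨q, hq, rfl⟩ := hp
      have := hmemF q (Finset.mem_sdiff.mp hq).2
      exact ⟨q.2, this.1, this.2⟩)
  rw [Finset.prod_map] at h1
  exact h1

lemma SS_nonneg {r : ℕ} (a : Fin r → ℤ) {S : ℝ}
    (hS : HasProd (fun p : Nat.Primes => loc a p) S) : 0 ≤ S := by
  refine ge_of_tendsto hS ?_
  filter_upwards with F
  exact Finset.prod_nonneg fun p _ => loc_nonneg a p.2

lemma SS_le' {r : ℕ} (hr : 1 ≤ r) (c d H : ℕ) (hd : d ≠ 0)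
    (b : Fin r → ℕ) (hb : b ∈ injTuples r (Icc 1 H)) {S : ℝ}
    (hS : HasProd (fun p : Nat.Primes => loc (shift c d b) p) S) :
    S ≤ ((DD1 d)⁻¹) ^ (r - 1) * ∏ p ∈ badPrimes b 1 H, ww (r-1) p := by
  have h := SS_le hr c d H hd b hb 1 hS
  have e : WW (Nat.primesLE 1) c d b = ((DD1 d)⁻¹) ^ (r - 1) := by
    unfold WW
    have : Nat.primesLE 1 = ∅ := by decide
    rw [this, Finset.empty_union, prod_loc_primeFactors hr]
  rwa [e] at h

/-- Inadmissible tuples have few prime values. -/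
lemma tcount_le_of_inadm {r : ℕ} (a : Fin r → ℤ) {p : ℕ} (hp : p.Prime) (h : p ≤ nu a p) (x : ℕ) :
    tcount a x ≤ r := by
  classical
  have hnu : nu a p = p := le_antisymm (nu_le_prime a hp) h
  -- every n has some i with p ∣ n + a i
  have hall : ∀ n : ℕ, ∃ i, (p:ℤ) ∣ n + a i := by
    intro n
    rw [← mem_Om a p hp n]
    have h2 : Om a p = range p := Finset.eq_of_subset_of_card_le (Om_subset a p hp) (by
      rw [card_Om a p hp, hnu, card_range])
    rw [h2, mem_range]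
    exact Nat.mod_lt _ hp.pos
  unfold tcount
  have hsub : ((Icc 1 x).filter (fun n : ℕ => ∀ i, Nat.Prime (((n : ℤ) + a i).toNat)))
      ⊆ (univ : Finset (Fin r)).image (fun i => ((p:ℤ) - a i).toNat) := by
    intro n hn
    rw [mem_filter, mem_Icc] at hn
    obtain ⟨i, hi⟩ := hall n
    rw [mem_image]
    refine ⟨i, mem_univ _, ?_⟩
    have h3 := hn.2 i
    have h4 : 0 < (n:ℤ) + a i := by
      by_contra hcon
      push Not at hcon
      have : ((n:ℤ) + a i).toNat = 0 := Int.toNat_of_nonpos hcon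
      rw [this] at h3
      exact Nat.not_prime_zero h3
    have h5 : ((((n:ℤ) + a i).toNat : ℕ) : ℤ) = (n:ℤ) + a i := Int.toNat_of_nonneg h4.le
    have h6 : p ∣ ((n:ℤ) + a i).toNat := by
      rw [← h5] at hi
      exact_mod_cast hi
    have h7 := (Nat.prime_dvd_prime_iff_eq hp h3).mp h6
    omega
  have h2 := Finset.card_le_card hsub
  have h3 : ((univ : Finset (Fin r)).image (fun i => ((p:ℤ) - a i).toNat)).card ≤ r := by
    have := Finset.card_image_le (s := (univ : Finset (Fin r))) (f := fun i => ((p:ℤ) - a i).toNat)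
    simpa using this
  exact h2.trans h3

end Pool.Agent.HL
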